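import Pool.Agent.H622R2.Ckt.ASI

/-! Asymptotic estimates for the test language (task ASA). -/

namespace Pool.Agent.H622R2.Ckt

open Pool.Agent.NPC Pool.Agent.H620R2.Gauge Pool.Agent.H622R2.Exp Finset H568R2
open Filter (atTop)

open ASI

theorem mT_mono (a b : ℕ) : Monotone (mT a b) := by
  intro m n h
  unfold mT
  apply Nat.pow_le_pow_right (by norm_num)
  have := Nat.div_le_div_right (c := b) h
  have := Nat.mul_le_mul_left a this
  omega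

theorem asy_ae {a b : ℕ} {ε s : ℝ} (hε : 0 < ε) (hb : 0 < b) (hεa : ε * b ≤ a) (hab : a < b)
    (hs : 0 < s) (hsa : s * a < b) {f : ℕ → ℝ}
    (hf : ∃ᶠ N : ℕ in atTop, f N ≤ (Real.logb 2 N) ^ s) (δ : ℝ) (hδ : 0 < δ) (n₀ : ℕ) :
    ∃ n ≥ n₀, ∃ N, 2 ^ (n + mT a b n + 1) ≤ N ∧
      (nC n ⌊(2 : ℝ) ^ (ε * n)⌋₊ / 2 ^ 2 ^ n : ℝ) * 2 ^ f N ≤ δ := by
  have hb' : (0 : ℝ) < b := by exact_mod_cast hb
  have ha : 0 < a := pos_a hε hb hεa
  have ha' : (0 : ℝ) < a := by exact_mod_cast ha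
  have hab' : (a : ℝ) < b := by exact_mod_cast hab
  have hε1 : ε < 1 := by
    by_contra h
    push Not at h
    nlinarith
  have hθ0 : (0 : ℝ) < a / b := by positivity
  have hθ00 : (a : ℝ) / b < 1 := by rwa [div_lt_one hb']
  have hθ1 : s * (a / b : ℝ) < 1 := by
    rw [← mul_div_assoc, div_lt_one hb']
    exact hsa
  have hC0 : (0 : ℝ) ≤ 2 ^ (a + 2) + 1 := by positivity
  have h1 := core hε hε1 hθ1 ((2 ^ (a + 2) + 1 : ℝ) ^ s) (by positivity) hδ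
  obtain ⟨n₁, hn₁⟩ := Filter.eventually_atTop.1 (h1.and (n_le hθ0))
  set g : ℕ → ℕ := fun n => 2 ^ (n + mT a b n + 1) with hg
  have hgm : Monotone g := by
    intro m n h
    have := mT_mono a b h
    exact Nat.pow_le_pow_right (by norm_num) (by omega)
  have hgu : ∀ l, ∃ n, l < g n := fun l =>
    ⟨l, (Nat.lt_two_pow_self).trans_le (Nat.pow_le_pow_right (by norm_num) (by omega))⟩
  obtain ⟨N, hN, hfN⟩ := Filter.frequently_atTop.1 hf (max (g (max n₀ n₁)) 1)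
  obtain ⟨n, hn0, hn1, hn2⟩ := YAux.exists_between' hgm hgu ((le_max_left _ _).trans hN)
  have hN1 : 1 ≤ N := (le_max_right _ _).trans hN
  obtain ⟨h3, h4⟩ := hn₁ n ((le_max_right _ _).trans hn0)
  refine ⟨n, (le_max_left _ _).trans hn0, N, hn1, ?_⟩
  have hle : (nC n ⌊(2 : ℝ) ^ (ε * n)⌋₊ / 2 ^ 2 ^ n : ℝ) *
      2 ^ ((2 ^ (a + 2) + 1 : ℝ) ^ s * 2 ^ (s * (a / b) * n)) ≤ δ :=
    h3.trans (div_le_self hδ.le (one_le_pow₀ (by norm_num)))
  refine le_trans (mul_le_mul_of_nonneg_left ?_ (by positivity)) hle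
  apply Real.rpow_le_rpow_of_exponent_le (by norm_num)
  refine hfN.trans ?_
  have hN1' : (1 : ℝ) ≤ N := by exact_mod_cast hN1
  refine pow_s hC0 hs (Real.logb_nonneg (by norm_num) hN1') ?_
  have h5 : Real.logb 2 N ≤ (n : ℝ) + 1 + mT a b (n + 1) + 1 := by
    have h6 : (N : ℝ) ≤ 2 ^ (n + 1 + mT a b (n + 1) + 1) := by exact_mod_cast hn2.le
    have h7 := Real.logb_le_logb_of_le (b := 2) (by norm_num) (by linarith) h6
    rw [Real.logb_pow, Real.logb_self_eq_one (by norm_num)] at h7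
    push_cast at h7
    linarith
  have h8 := mT_le (a := a) (n := n + 1) hb
  have h9 : (2 : ℝ) ^ ((a : ℝ) / b * ((n + 1 : ℕ) : ℝ)) ≤ 2 * 2 ^ ((a : ℝ) / b * n) := by
    have : (a : ℝ) / b * ((n + 1 : ℕ) : ℝ) = a / b + a / b * n := by push_cast; ring
    rw [this, Real.rpow_add (by norm_num)]
    apply mul_le_mul_of_nonneg_right _ (by positivity)
    calc (2 : ℝ) ^ ((a : ℝ) / b) ≤ 2 ^ (1 : ℝ) :=
          Real.rpow_le_rpow_of_exponent_le (by norm_num) hθ00.le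
      _ = 2 := Real.rpow_one 2
  have h10 : (2 : ℝ) ^ (a + 1) * 2 ^ ((a : ℝ) / b * ((n + 1 : ℕ) : ℝ)) ≤
      2 ^ (a + 1) * (2 * 2 ^ ((a : ℝ) / b * n)) := mul_le_mul_of_nonneg_left h9 (by positivity)
  have h11 : (2 ^ (a + 2) + 1) * (2 : ℝ) ^ ((a : ℝ) / b * n) =
      2 ^ (a + 1) * (2 * 2 ^ ((a : ℝ) / b * n)) + 2 ^ ((a : ℝ) / b * n) := by ring
  rw [h11]
  linarith

end Pool.Agent.H622R2.Ckt
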