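import Pool.Agent.H622R2.Ckt.Base
import Pool.Agent.H622R2.Exp.YAux

/-! Asymptotic estimates for the test language (tasks ASI and ASA). -/

namespace Pool.Agent.H622R2.Ckt

open Pool.Agent.NPC Pool.Agent.H620R2.Gauge Pool.Agent.H622R2.Exp Finset H568R2
open Filter (atTop)

namespace ASI

theorem tendsto_lin_geom {ρ : ℝ} (hρ : ρ < 1) (D : ℝ) :
    ∀ᶠ n : ℕ in atTop, D * (((n : ℝ) + 4) * 2 ^ (ρ * n)) ≤ 2 ^ (n : ℝ) := by
  set r : ℝ := 2 ^ (ρ - 1) with hr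
  have hr0 : 0 < r := by positivity
  have hr1 : r < 1 := Real.rpow_lt_one_of_one_lt_of_neg (by norm_num) (by linarith)
  have h1 : Filter.Tendsto (fun n : ℕ => (n : ℝ) ^ 1 * r ^ n) atTop (nhds 0) :=
    tendsto_pow_const_mul_const_pow_of_abs_lt_one 1 (by rw [abs_of_pos hr0]; exact hr1)
  have h2 : Filter.Tendsto (fun n : ℕ => r ^ n) atTop (nhds 0) :=
    tendsto_pow_atTop_nhds_zero_of_lt_one hr0.le hr1
  have h3 : Filter.Tendsto (fun n : ℕ => D * ((n : ℝ) ^ 1 * r ^ n + 4 * r ^ n)) atTop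
      (nhds (D * (0 + 4 * 0))) := (h1.add (h2.const_mul 4)).const_mul D
  have h4 := h3.eventually_le_const (show D * (0 + 4 * 0) < 1 by simp)
  filter_upwards [h4] with n hn
  have h5 : (2 : ℝ) ^ (ρ * n) = r ^ n * 2 ^ (n : ℝ) := by
    rw [hr, ← Real.rpow_natCast, ← Real.rpow_mul (by norm_num), ← Real.rpow_add (by norm_num)]
    congr 1
    ring
  rw [h5]
  have h6 : (0 : ℝ) < 2 ^ (n : ℝ) := by positivity
  calc D * (((n : ℝ) + 4) * (r ^ n * 2 ^ (n : ℝ)))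
      = (D * ((n : ℝ) ^ 1 * r ^ n + 4 * r ^ n)) * 2 ^ (n : ℝ) := by ring
    _ ≤ 1 * 2 ^ (n : ℝ) := mul_le_mul_of_nonneg_right hn h6.le
    _ = _ := one_mul _

/-- the number of circuits -/
theorem nC_le {ε : ℝ} (h0 : 0 < ε) (h1 : ε < 1) (n : ℕ) :
    (nC n ⌊(2 : ℝ) ^ (ε * n)⌋₊ : ℝ) ≤ 2 ^ (8 * (((n : ℝ) + 4) * 2 ^ (ε * n))) := by
  set u : ℝ := 2 ^ (ε * n) with hu
  have hn : (0 : ℝ) ≤ n := Nat.cast_nonneg n
  have hu1 : 1 ≤ u := Real.one_le_rpow (by norm_num) (by positivity)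
  have hun : u ≤ 2 ^ (n : ℝ) := by
    rw [hu]
    apply Real.rpow_le_rpow_of_exponent_le (by norm_num)
    nlinarith
  set k := ⌊u⌋₊ with hk
  have hku : (k : ℝ) ≤ u := Nat.floor_le (by linarith)
  have hn2 : (n : ℝ) ≤ 2 ^ (n : ℝ) := by
    rw [Real.rpow_natCast]
    exact_mod_cast Nat.lt_two_pow_self.le
  have h2n : (1 : ℝ) ≤ 2 ^ (n : ℝ) := Real.one_le_rpow (by norm_num) hn
  have hbase : (n : ℝ) + k + 8 ≤ 2 ^ ((n : ℝ) + 4) := by
    have h16 : (2 : ℝ) ^ (4 : ℝ) = 16 := by norm_num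
    rw [Real.rpow_add (by norm_num), h16]
    linarith
  have h8 : (0 : ℝ) ≤ (n : ℝ) + k + 8 := by positivity
  unfold nC
  push_cast
  calc ((n : ℝ) + k + 8) ^ (4 * k + 4) ≤ (2 ^ ((n : ℝ) + 4)) ^ (4 * k + 4) :=
        pow_le_pow_left₀ h8 hbase _
    _ = 2 ^ (((n : ℝ) + 4) * ((4 * k + 4 : ℕ) : ℝ)) := by
        rw [Real.rpow_mul (by norm_num), Real.rpow_natCast]
    _ ≤ _ := by
        apply Real.rpow_le_rpow_of_exponent_le (by norm_num)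
        push_cast
        nlinarith

/-- the error beats a gauge of size `C 2 ^ (θ n)` -/
theorem core {ε θ : ℝ} (h0 : 0 < ε) (h1 : ε < 1) (hθ : θ < 1) (C : ℝ) (hC : 0 ≤ C) {δ : ℝ}
    (hδ : 0 < δ) : ∀ᶠ n : ℕ in atTop,
    (nC n ⌊(2 : ℝ) ^ (ε * n)⌋₊ / 2 ^ 2 ^ n : ℝ) * 2 ^ (C * 2 ^ (θ * n)) ≤ δ / 2 ^ (n + 1) := by
  set ρ := max ε θ with hρ
  have hρ1 : ρ < 1 := max_lt h1 hθ
  have hρ0 : 0 < ρ := lt_max_of_lt_left h0
  filter_upwards [tendsto_lin_geom hρ1 (9 + C + |Real.logb 2 δ|)] with n hn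
  have hn0 : (0 : ℝ) ≤ n := Nat.cast_nonneg n
  have hnC := nC_le h0 h1 n
  have e1 : (2 : ℝ) ^ (ε * n) ≤ 2 ^ (ρ * n) := by
    apply Real.rpow_le_rpow_of_exponent_le (by norm_num)
    exact mul_le_mul_of_nonneg_right (le_max_left _ _) hn0
  have e2 : (2 : ℝ) ^ (θ * n) ≤ 2 ^ (ρ * n) := by
    apply Real.rpow_le_rpow_of_exponent_le (by norm_num)
    exact mul_le_mul_of_nonneg_right (le_max_right _ _) hn0
  have e3 : (1 : ℝ) ≤ 2 ^ (ρ * n) := Real.one_le_rpow (by norm_num) (by positivity)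
  have e0 : (0 : ℝ) < 2 ^ (ε * n) := by positivity
  have e4 : (0 : ℝ) < 2 ^ (θ * n) := by positivity
  set R : ℝ := 2 ^ (ρ * n) with hR
  have hd : (δ : ℝ) = 2 ^ Real.logb 2 δ := (Real.rpow_logb (by norm_num) (by norm_num) hδ).symm
  have habs := neg_abs_le (Real.logb 2 δ)
  have habs0 := abs_nonneg (Real.logb 2 δ)
  have key : 8 * (((n : ℝ) + 4) * 2 ^ (ε * n)) + C * 2 ^ (θ * n) - 2 ^ (n : ℝ) ≤
      Real.logb 2 δ - ((n : ℝ) + 1) := by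
    have t1 : 8 * (((n : ℝ) + 4) * 2 ^ (ε * n)) ≤ 8 * (((n : ℝ) + 4) * R) := by
      have := mul_le_mul_of_nonneg_left e1 (show (0 : ℝ) ≤ (n : ℝ) + 4 by linarith)
      linarith
    have t2 : C * 2 ^ (θ * n) ≤ C * (((n : ℝ) + 4) * R) := by
      apply mul_le_mul_of_nonneg_left _ hC
      nlinarith
    have t3 : (n : ℝ) + 1 ≤ ((n : ℝ) + 4) * R := by nlinarith
    have t4 : |Real.logb 2 δ| ≤ |Real.logb 2 δ| * (((n : ℝ) + 4) * R) := by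
      apply le_mul_of_one_le_right habs0
      nlinarith
    nlinarith
  have h2 : (2 : ℝ) ^ (2 ^ n : ℕ) = 2 ^ ((2 : ℝ) ^ (n : ℝ)) := by
    rw [← Real.rpow_natCast]
    congr 1
    push_cast
    rw [Real.rpow_natCast]
  calc (nC n ⌊(2 : ℝ) ^ (ε * n)⌋₊ / 2 ^ 2 ^ n : ℝ) * 2 ^ (C * 2 ^ (θ * n))
      ≤ (2 ^ (8 * (((n : ℝ) + 4) * 2 ^ (ε * n))) / 2 ^ ((2 : ℝ) ^ (n : ℝ))) *
          2 ^ (C * 2 ^ (θ * n)) := by
        rw [h2]
        apply mul_le_mul_of_nonneg_right _ (by positivity)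
        exact div_le_div_of_nonneg_right hnC (by positivity)
    _ = 2 ^ (8 * (((n : ℝ) + 4) * 2 ^ (ε * n)) + C * 2 ^ (θ * n) - 2 ^ (n : ℝ)) := by
        rw [Real.rpow_sub (by norm_num), Real.rpow_add (by norm_num)]
        ring
    _ ≤ 2 ^ (Real.logb 2 δ - ((n : ℝ) + 1)) :=
        Real.rpow_le_rpow_of_exponent_le (by norm_num) key
    _ = δ / 2 ^ (n + 1) := by
        rw [Real.rpow_sub (by norm_num), ← hd]
        congr 1
        rw [← Real.rpow_natCast]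
        push_cast
        rfl

theorem mT_le {a b n : ℕ} (hb : 0 < b) :
    (mT a b n : ℝ) ≤ 2 ^ (a + 1) * 2 ^ ((a : ℝ) / b * n) := by
  have hb' : (0 : ℝ) < b := by exact_mod_cast hb
  have h1 : ((n / b : ℕ) : ℝ) ≤ n / b := Nat.cast_div_le
  unfold mT
  push_cast
  rw [show (2 : ℝ) ^ (a * (n / b) + a + 1) = 2 ^ (a + 1) * 2 ^ (a * (n / b)) by
    rw [← pow_add]; congr 1; ring]
  apply mul_le_mul_of_nonneg_left _ (by positivity)
  rw [← Real.rpow_natCast 2 (a * (n / b))]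
  apply Real.rpow_le_rpow_of_exponent_le (by norm_num)
  push_cast
  calc (a : ℝ) * ((n / b : ℕ) : ℝ) ≤ a * (n / b) :=
        mul_le_mul_of_nonneg_left h1 (Nat.cast_nonneg a)
    _ = (a : ℝ) / b * n := by ring

theorem n_le {θ : ℝ} (hθ : 0 < θ) : ∀ᶠ n : ℕ in atTop, (n : ℝ) + 2 ≤ 2 ^ (θ * n) := by
  have h1 : Filter.Tendsto (fun n : ℕ => θ * n) atTop atTop :=
    tendsto_natCast_atTop_atTop.const_mul_atTop hθ
  -- `2 ^ x` grows faster than `x`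
  set r : ℝ := 2 ^ (-θ) with hr
  have hr0 : 0 < r := by positivity
  have hr1 : r < 1 := Real.rpow_lt_one_of_one_lt_of_neg (by norm_num) (by linarith)
  have h2 : Filter.Tendsto (fun n : ℕ => (n : ℝ) ^ 1 * r ^ n) atTop (nhds 0) :=
    tendsto_pow_const_mul_const_pow_of_abs_lt_one 1 (by rw [abs_of_pos hr0]; exact hr1)
  have h3 : Filter.Tendsto (fun n : ℕ => r ^ n) atTop (nhds 0) :=
    tendsto_pow_atTop_nhds_zero_of_lt_one hr0.le hr1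
  have h4 : Filter.Tendsto (fun n : ℕ => (n : ℝ) ^ 1 * r ^ n + 2 * r ^ n) atTop
      (nhds (0 + 2 * 0)) := h2.add (h3.const_mul 2)
  filter_upwards [h4.eventually_le_const (show (0 : ℝ) + 2 * 0 < 1 by simp)] with n hn
  have h5 : (2 : ℝ) ^ (θ * n) * r ^ n = 1 := by
    rw [hr, ← Real.rpow_natCast, ← Real.rpow_mul (by norm_num), ← Real.rpow_add (by norm_num)]
    rw [show θ * n + -θ * n = 0 by ring, Real.rpow_zero]
  have h6 : (0 : ℝ) < 2 ^ (θ * n) := by positivity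
  calc (n : ℝ) + 2 = ((n : ℝ) + 2) * ((2 : ℝ) ^ (θ * n) * r ^ n) := by rw [h5, mul_one]
    _ = ((n : ℝ) ^ 1 * r ^ n + 2 * r ^ n) * 2 ^ (θ * n) := by ring
    _ ≤ 1 * 2 ^ (θ * n) := mul_le_mul_of_nonneg_right hn h6.le
    _ = _ := one_mul _

/-- `(C 2 ^ (θ n)) ^ s` -/
theorem pow_s {C θ s l : ℝ} {n : ℕ} (hC : 0 ≤ C) (hs : 0 < s) (hl0 : 0 ≤ l)
    (hl : l ≤ C * 2 ^ (θ * n)) : l ^ s ≤ C ^ s * 2 ^ (s * θ * n) := by
  calc l ^ s ≤ (C * 2 ^ (θ * n)) ^ s := Real.rpow_le_rpow hl0 hl hs.le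
    _ = C ^ s * (2 ^ (θ * n)) ^ s := Real.mul_rpow hC (by positivity)
    _ = _ := by
        rw [← Real.rpow_mul (by norm_num)]
        congr 2
        ring

theorem pos_a {a b : ℕ} {ε : ℝ} (hε : 0 < ε) (hb : 0 < b) (hεa : ε * b ≤ a) : 0 < a := by
  have hb' : (0 : ℝ) < b := by exact_mod_cast hb
  have : (0 : ℝ) < a := (mul_pos hε hb').trans_le hεa
  exact_mod_cast this

end ASI

open ASI

theorem asy_io {a b : ℕ} {ε s : ℝ} (hε : 0 < ε) (hb : 0 < b) (hεa : ε * b ≤ a) (hab : a < b)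
    (hs : 0 < s) (hsa : s * a < b) {f : ℕ → ℝ}
    (hf : ∀ᶠ N : ℕ in atTop, ∃ N' ≥ N, f N' ≤ (Real.logb 2 N) ^ s) (δ : ℝ) (hδ : 0 < δ) :
    ∃ (n₁ : ℕ) (N : ℕ → ℕ), ∀ n ≥ n₁, 2 ^ (n + mT a b n + 1) ≤ N n ∧
      (nC n ⌊(2 : ℝ) ^ (ε * n)⌋₊ / 2 ^ 2 ^ n : ℝ) * 2 ^ f (N n) ≤ δ / 2 ^ (n + 1) := by
  have hb' : (0 : ℝ) < b := by exact_mod_cast hb
  have ha : 0 < a := pos_a hε hb hεa
  have ha' : (0 : ℝ) < a := by exact_mod_cast ha
  have hab' : (a : ℝ) < b := by exact_mod_cast hab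
  have hε1 : ε < 1 := by
    by_contra h
    push Not at h
    nlinarith
  have hθ0 : (0 : ℝ) < a / b := by positivity
  have hθ1 : s * (a / b : ℝ) < 1 := by
    rw [← mul_div_assoc, div_lt_one hb']
    exact hsa
  have hC0 : (0 : ℝ) ≤ 2 ^ (a + 1) + 1 := by positivity
  have h1 := core hε hε1 hθ1 ((2 ^ (a + 1) + 1 : ℝ) ^ s) (by positivity) hδ
  have htend : Filter.Tendsto (fun n : ℕ => 2 ^ (n + mT a b n + 1)) atTop atTop := by
    refine Filter.tendsto_atTop_mono (fun n => ?_) Filter.tendsto_id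
    show n ≤ _
    exact (by omega : n ≤ n + mT a b n + 1).trans Nat.lt_two_pow_self.le
  have h2 := (htend.eventually hf).and (h1.and (n_le hθ0))
  obtain ⟨n₁, hn₁⟩ := Filter.eventually_atTop.1 h2
  have hex : ∀ n : ℕ, ∃ N : ℕ, n₁ ≤ n → 2 ^ (n + mT a b n + 1) ≤ N ∧
      (nC n ⌊(2 : ℝ) ^ (ε * n)⌋₊ / 2 ^ 2 ^ n : ℝ) * 2 ^ f N ≤ δ / 2 ^ (n + 1) := by
    intro n
    by_cases hn : n₁ ≤ n
    · obtain ⟨⟨N', hN', hfN⟩, h3, h4⟩ := hn₁ n hn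
      refine ⟨N', fun _ => ⟨hN', ?_⟩⟩
      refine le_trans (mul_le_mul_of_nonneg_left ?_ (by positivity)) h3
      apply Real.rpow_le_rpow_of_exponent_le (by norm_num)
      refine hfN.trans ?_
      have h5 : Real.logb 2 ((2 ^ (n + mT a b n + 1) : ℕ) : ℝ) = (n : ℝ) + mT a b n + 1 := by
        push_cast
        rw [Real.logb_pow, Real.logb_self_eq_one (by norm_num)]
        push_cast
        ring
      rw [h5]
      refine pow_s hC0 hs (by positivity) ?_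
      have h6 := mT_le (a := a) (n := n) hb
      have : (2 ^ (a + 1) + 1) * (2 : ℝ) ^ ((a : ℝ) / b * n) =
        2 ^ (a + 1) * 2 ^ ((a : ℝ) / b * n) + 2 ^ ((a : ℝ) / b * n) := by ring
      rw [this]
      linarith
    · exact ⟨0, fun h => absurd h hn⟩
  choose N hN using hex
  exact ⟨n₁, N, hN⟩

end Pool.Agent.H622R2.Ckt
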