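import Pool.Agent.H622R2.Ckt.Defs
import Pool.Agent.H622R2.Exp.Base
import Pool.Agent.H620R2.Gauge.Cover

/-!
# The objects of the proof
-/

namespace Pool.Agent.H622R2.Ckt

open Pool.Agent.NPC Pool.Agent.H620R2.Gauge Pool.Agent.H622R2.Exp Finset H568R2

/-- the length of the padding in the test language -/
def mT (a b n : ℕ) : ℕ := 2 ^ (a * (n / b) + a + 1)

/-- the test language for circuits of size less than `2 ^ (a n / b)` -/
def test (a b : ℕ) (A : Oracle) : Set (List Bool) :=
  {x | A (x ++ List.replicate (mT a b x.length) false) = true}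

/-- The event: some circuit of size at most `k` decides the test language for the inputs of
length `n`. -/
def EvK (a b n k N : ℕ) (v : Fin N → Bool) : Prop :=
  ∃ C : Circuit, C.size ≤ k ∧ ∀ x : List Bool, x.length = n →
    (orc N v (x ++ List.replicate (mT a b n) false) = true ↔ C.eval (orc N v) x = true)

/-- the bound for the number of circuits of size at most `k` with `n` inputs -/
def nC (n k : ℕ) : ℕ := (n + k + 8) ^ (4 * k + 4)

/-- `2 ^ hw c e n` bounds the number of frozen strings when the code for machine number `e` and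
input length `n` is written; `2 ^ (c e * (n + 1))` bounds the time of machine number `e` -/
def hw (c : ℕ → ℕ) (e n : ℕ) : ℕ := c e * (n + 1) + 2 * n + e + 2

/-- the code string for the question whether machine number `e` accepts `x`, with key `w` and total
length `ℓ` -/
def cdw (ℓ e : ℕ) (w x : List Bool) : List Bool :=
  (List.replicate e true ++ false :: (List.replicate x.length true ++ false :: w)) ++ x ++
    List.replicate (ℓ - (e + 2 * x.length + 2 + w.length)) false

/-- the length of the code strings for circuits of size less than `2 ^ (ε e * n)` -/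
noncomputable def Lf (ε : ℕ → ℝ) (e n : ℕ) : ℕ := ⌈(2 : ℝ) ^ (ε e * n)⌉₊ - 2

/-- the set of codes is sparse enough for the gauge `f` -/
def Cheap (f : ℕ → ℝ) (c : ℕ → ℕ) (L : ℕ → ℕ → ℕ) (Act : Set (ℕ × ℕ)) : Prop :=
  (∀ p ∈ Act, p.1 + 2 * p.2 + 3 + hw c p.1 p.2 ≤ L p.1 p.2) ∧
  ∃ d : ℝ, ∀ (N : ℕ) (S : Finset (ℕ × ℕ)), (∀ p ∈ S, p ∈ Act ∧ 2 ^ L p.1 p.2 ≤ N) →
    ∑ p ∈ S, ((2 : ℝ) ^ p.2 + hw c p.1 p.2 + 1) ≤ f N + d

end Pool.Agent.H622R2.Ckt
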