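import Pool.Agent.H622R2.Ckt.Base

/-!
# Task CAE: the choice of the active codes (almost everywhere version)
-/

namespace Pool.Agent.H622R2.Ckt

open Pool.Agent.NPC Pool.Agent.H620R2.Gauge Pool.Agent.H622R2.Exp Finset H568R2
open Filter (atTop)

namespace CAE

/-- the cost of a code -/
noncomputable def g (c : ℕ → ℕ) (e n : ℕ) : ℝ := (2 : ℝ) ^ n + hw c e n + 1

theorem g_nonneg (c : ℕ → ℕ) (e n : ℕ) : 0 ≤ g c e n := by
  unfold g; positivity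

theorem g_le (c : ℕ → ℕ) (e n : ℕ) : g c e n ≤ ((c e : ℝ) + e + 4) * 2 ^ n := by
  have h : (n : ℝ) + 1 ≤ 2 ^ n := by
    have h1 : n + 1 ≤ 2 ^ n := Nat.lt_two_pow_self
    exact_mod_cast h1
  have h2 : (0 : ℝ) ≤ c e := Nat.cast_nonneg _
  have h3 : (0 : ℝ) ≤ e := Nat.cast_nonneg _
  have h4 : (0 : ℝ) ≤ n := Nat.cast_nonneg _
  have h5 : g c e n ≤ 2 ^ n + ((c e : ℝ) + e + 3) * (n + 1) := by
    unfold g hw
    push_cast
    nlinarith [mul_nonneg h3 h4]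
  have h6 : ((c e : ℝ) + e + 3) * (n + 1) ≤ ((c e : ℝ) + e + 3) * 2 ^ n :=
    mul_le_mul_of_nonneg_left h (by positivity)
  linarith

theorem sum_g_le (c : ℕ → ℕ) (e n : ℕ) :
    ∑ m ∈ range (n + 1), g c e m ≤ ((c e : ℝ) + e + 4) * 2 ^ (n + 1) := by
  have h1 : ∑ m ∈ range (n + 1), (2 : ℝ) ^ m = 2 ^ (n + 1) - 1 := by
    rw [geom_sum_eq (by norm_num : (2 : ℝ) ≠ 1)]
    ring
  have h2 : (0 : ℝ) ≤ (c e : ℝ) + e + 4 := by positivity
  calc ∑ m ∈ range (n + 1), g c e m ≤ ∑ m ∈ range (n + 1), ((c e : ℝ) + e + 4) * 2 ^ m :=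
        sum_le_sum fun m _ => g_le c e m
    _ = ((c e : ℝ) + e + 4) * (2 ^ (n + 1) - 1) := by rw [← mul_sum, h1]
    _ ≤ ((c e : ℝ) + e + 4) * 2 ^ (n + 1) :=
        mul_le_mul_of_nonneg_left (by linarith) h2

theorem ev_b (c : ℕ → ℕ) {ε s : ℝ} (e : ℕ) (hε : 0 < ε) (hs : 1 / ε < s) :
    ∀ᶠ n : ℕ in atTop, 0 ≤ (2 : ℝ) ^ (ε * n) - 2 ∧
      2 ^ (e + 1) * ∑ m ∈ range (n + 1), g c e m ≤ ((2 : ℝ) ^ (ε * n) - 2) ^ s := by
  have hs0 : 0 < s := lt_trans (by positivity) hs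
  have hes : 1 < ε * s := by
    rw [div_lt_iff₀ hε] at hs
    linarith
  have h1 : ∀ᶠ n : ℕ in atTop, 2 ≤ ε * (n : ℝ) :=
    (Filter.Tendsto.const_mul_atTop hε tendsto_natCast_atTop_atTop).eventually_ge_atTop 2
  set C : ℝ := 2 ^ (e + 1) * (((c e : ℝ) + e + 4) * 2) with hC
  have hCpos : 0 < C := by positivity
  have h2 : ∀ᶠ n : ℕ in atTop, Real.logb 2 C + s ≤ (ε * s - 1) * (n : ℝ) :=
    (Filter.Tendsto.const_mul_atTop (by linarith : 0 < ε * s - 1)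
      tendsto_natCast_atTop_atTop).eventually_ge_atTop _
  filter_upwards [h1, h2] with n hn1 hn2
  have h3 : (2 : ℝ) ^ (ε * n - 1) ≤ 2 ^ (ε * n) - 2 := by
    have h4 : (2 : ℝ) ^ (ε * n) = 2 ^ (ε * n - 1) * 2 := by
      rw [Real.rpow_sub_one (by norm_num)]
      ring
    have h5 : (2 : ℝ) ^ (1 : ℝ) ≤ 2 ^ (ε * n - 1) :=
      Real.rpow_le_rpow_of_exponent_le (by norm_num) (by linarith)
    rw [Real.rpow_one] at h5
    linarith
  have h6 : (0 : ℝ) < 2 ^ (ε * n - 1) := by positivity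
  refine ⟨by linarith, ?_⟩
  calc 2 ^ (e + 1) * ∑ m ∈ range (n + 1), g c e m
      ≤ 2 ^ (e + 1) * (((c e : ℝ) + e + 4) * 2 ^ (n + 1)) :=
        mul_le_mul_of_nonneg_left (sum_g_le c e n) (by positivity)
    _ = C * 2 ^ (n : ℝ) := by rw [hC, Real.rpow_natCast]; ring
    _ = 2 ^ (Real.logb 2 C + n) := by
        rw [Real.rpow_add (by norm_num), Real.rpow_logb (by norm_num) (by norm_num) hCpos]
    _ ≤ 2 ^ ((ε * n - 1) * s) :=
        Real.rpow_le_rpow_of_exponent_le (by norm_num) (by linarith)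
    _ = (2 ^ (ε * n - 1)) ^ s := by rw [← Real.rpow_mul (by norm_num)]
    _ ≤ ((2 : ℝ) ^ (ε * n) - 2) ^ s := Real.rpow_le_rpow h6.le h3 hs0.le

theorem ev_a (c : ℕ → ℕ) (ε : ℕ → ℝ) (e : ℕ) (hε : 0 < ε e) :
    ∀ᶠ n : ℕ in atTop, e + 2 * n + 3 + hw c e n ≤ Lf ε e n := by
  have hr : (1 : ℝ) < 2 ^ ε e := Real.one_lt_rpow (by norm_num) hε
  set K : ℝ := (c e : ℝ) + 2 * e + 8 with hK
  have hKpos : 0 < K := by positivity
  have h1 := tendsto_pow_const_div_const_pow_of_one_lt 1 hr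
  have h2 : ∀ᶠ n : ℕ in atTop, (n : ℝ) ^ 1 / (2 ^ ε e) ^ n < 1 / (2 * K) :=
    h1.eventually_lt_const (by positivity)
  filter_upwards [h2, Filter.eventually_ge_atTop 1] with n hn hn1
  have h3 : (1 : ℝ) ≤ n := by exact_mod_cast hn1
  have h4 : ((2 : ℝ) ^ ε e) ^ n = 2 ^ (ε e * n) := by
    rw [Real.rpow_mul (by norm_num), Real.rpow_natCast]
  rw [h4, pow_one, div_lt_div_iff₀ (by positivity) (by positivity)] at hn
  have h5 : ((e + 2 * n + 3 + hw c e n + 2 : ℕ) : ℝ) ≤ 2 ^ (ε e * n) := by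
    have h6 : ((e + 2 * n + 3 + hw c e n + 2 : ℕ) : ℝ) ≤ K * (n + 1) := by
      unfold hw
      push_cast
      have h7 : (0 : ℝ) ≤ e := Nat.cast_nonneg _
      nlinarith [mul_nonneg h7 (by linarith : (0 : ℝ) ≤ n)]
    have h8 : K * (n + 1) ≤ n * (2 * K) := by nlinarith
    linarith
  have h9 : e + 2 * n + 3 + hw c e n + 2 ≤ ⌈(2 : ℝ) ^ (ε e * n)⌉₊ := by
    exact_mod_cast h5.trans (Nat.le_ceil _)
  unfold Lf
  omega

theorem Lf_ge (ε : ℕ → ℝ) (e n : ℕ) : (2 : ℝ) ^ (ε e * n) - 2 ≤ Lf ε e n := by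
  have h1 : (2 : ℝ) ^ (ε e * n) ≤ ⌈(2 : ℝ) ^ (ε e * n)⌉₊ := Nat.le_ceil _
  have h2 : (⌈(2 : ℝ) ^ (ε e * n)⌉₊ : ℝ) ≤ (Lf ε e n : ℝ) + 2 := by
    have h3 : ⌈(2 : ℝ) ^ (ε e * n)⌉₊ ≤ Lf ε e n + 2 := by unfold Lf; omega
    exact_mod_cast h3
  linarith

/-- the choice of the threshold for machine number `e` -/
theorem exists_threshold (c : ℕ → ℕ) (ε s : ℕ → ℝ) (hε : ∀ e, 0 < ε e ∧ ε e < 1)
    (hs : ∀ e, 1 / ε e < s e) (f : ℕ → ℝ)
    (hf : ∀ e, ¬ ∃ᶠ N : ℕ in atTop, f N ≤ (Real.logb 2 N) ^ s e) (e : ℕ) :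
    ∃ n₀ : ℕ, ∀ n ≥ n₀, e + 2 * n + 3 + hw c e n ≤ Lf ε e n ∧
      ∀ N : ℕ, 2 ^ Lf ε e n ≤ N →
        ∑ m ∈ range (n + 1), g c e m ≤ f N / 2 ^ (e + 1) := by
  have hf' := hf e
  rw [Filter.not_frequently] at hf'
  obtain ⟨N₀, hN₀⟩ := Filter.eventually_atTop.mp hf'
  have ha := ev_a c ε e (hε e).1
  have hb := ev_b c e (hε e).1 (hs e)
  have hs0 : 0 < s e := lt_trans (by have := (hε e).1; positivity) (hs e)
  -- the power is at least `N₀`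
  have hc : ∀ᶠ n : ℕ in atTop, N₀ ≤ n := Filter.eventually_ge_atTop N₀
  obtain ⟨n₀, hn₀⟩ := Filter.eventually_atTop.mp (ha.and (hb.and hc))
  refine ⟨n₀, fun n hn => ?_⟩
  obtain ⟨h1, ⟨h2, h3⟩, h4⟩ := hn₀ n hn
  refine ⟨h1, fun N hN => ?_⟩
  have h5 : N₀ ≤ N := by
    have h6 : Lf ε e n < 2 ^ Lf ε e n := Nat.lt_two_pow_self
    omega
  have h7 := hN₀ N h5
  rw [not_le] at h7
  have h8 : (Lf ε e n : ℝ) ≤ Real.logb 2 N := by
    have h9 : (2 : ℝ) ^ (Lf ε e n) ≤ N := by exact_mod_cast hN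
    have h10 : (0 : ℝ) < N := lt_of_lt_of_le (by positivity) h9
    rw [Real.le_logb_iff_rpow_le (by norm_num) h10, Real.rpow_natCast]
    exact h9
  have h11 : ((2 : ℝ) ^ (ε e * n) - 2) ^ s e ≤ (Real.logb 2 N) ^ s e :=
    Real.rpow_le_rpow h2 ((Lf_ge ε e n).trans h8) hs0.le
  rw [le_div_iff₀ (by positivity), mul_comm]
  linarith

/-- the sum over the exponents of two -/
theorem sum_half (E : Finset ℕ) : ∑ e ∈ E, (1 : ℝ) / 2 ^ (e + 1) ≤ 1 := by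
  have h1 : ∑ e ∈ E, (1 : ℝ) / 2 ^ (e + 1) ≤ ∑ e ∈ range (E.sup id + 1), (1 : ℝ) / 2 ^ (e + 1) := by
    refine sum_le_sum_of_subset_of_nonneg ?_ (fun i _ _ => by positivity)
    intro e he
    rw [mem_range, Nat.lt_succ_iff]
    exact le_sup (f := id) he
  refine h1.trans ?_
  have h2 : ∀ n : ℕ, ∑ e ∈ range n, (1 : ℝ) / 2 ^ (e + 1) = 1 - 1 / 2 ^ n := by
    intro n
    induction n with
    | zero => simp
    | succ n ih =>
      rw [sum_range_succ, ih, pow_succ]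
      field_simp
      ring
  rw [h2]
  have h3 : (0 : ℝ) < 1 / 2 ^ (E.sup id + 1) := by positivity
  linarith

end CAE

open CAE in
theorem choose_ae (c : ℕ → ℕ) (ε s : ℕ → ℝ) (hε : ∀ e, 0 < ε e ∧ ε e < 1)
    (hs : ∀ e, 1 / ε e < s e) (f : ℕ → ℝ)
    (hf : ∀ e, ¬ ∃ᶠ N : ℕ in atTop, f N ≤ (Real.logb 2 N) ^ s e) :
    ∃ Act : Set (ℕ × ℕ), (∀ e, ∀ᶠ n in atTop, (e, n) ∈ Act) ∧ Cheap f c (Lf ε) Act := by
  choose n₀ hn₀ using exists_threshold c ε s hε hs f hf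
  refine ⟨{p | n₀ p.1 ≤ p.2}, fun e => Filter.eventually_ge_atTop (n₀ e), ?_, ?_⟩
  · rintro ⟨e, n⟩ hp
    exact (hn₀ e n hp).1
  -- a lower bound for `f`
  obtain ⟨d, hd0, hd⟩ : ∃ d : ℝ, 0 ≤ d ∧ ∀ N, 0 ≤ f N + d := by
    have hf' := hf 0
    rw [Filter.not_frequently] at hf'
    obtain ⟨N₀, hN₀⟩ := Filter.eventually_atTop.mp hf'
    refine ⟨∑ N ∈ range (N₀ + 1), |f N|, sum_nonneg fun _ _ => abs_nonneg _, fun N => ?_⟩
    by_cases hN : N ≤ N₀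
    · have h1 : |f N| ≤ ∑ N ∈ range (N₀ + 1), |f N| :=
        single_le_sum (f := fun N => |f N|) (fun i _ => abs_nonneg _)
          (mem_range.mpr (Nat.lt_succ_of_le hN))
      have h2 := neg_abs_le (f N)
      linarith
    · have h1 := hN₀ N (by omega)
      rw [not_le] at h1
      have h2 : (0 : ℝ) ≤ Real.logb 2 N := by
        apply Real.logb_nonneg (by norm_num)
        have : 1 ≤ N := by omega
        exact_mod_cast this
      have h3 : (0 : ℝ) ≤ (Real.logb 2 N) ^ s 0 := Real.rpow_nonneg h2 _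
      have h4 : 0 ≤ ∑ N ∈ range (N₀ + 1), |f N| := sum_nonneg fun _ _ => abs_nonneg _
      linarith
  refine ⟨d, fun N S hS => ?_⟩
  rcases S.eq_empty_or_nonempty with rfl | hne
  · simpa using hd N
  have key : ∀ e ∈ S.image Prod.fst,
      ∑ p ∈ S with p.1 = e, ((2 : ℝ) ^ p.2 + hw c p.1 p.2 + 1) ≤ f N / 2 ^ (e + 1) := by
    intro e he
    set T : Finset ℕ := (S.filter (fun p => p.1 = e)).image Prod.snd with hT
    have hTne : T.Nonempty := by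
      obtain ⟨p, hp, hpe⟩ := mem_image.mp he
      exact ⟨p.2, mem_image.mpr ⟨p, mem_filter.mpr ⟨hp, hpe⟩, rfl⟩⟩
    have h1 : ∑ p ∈ S with p.1 = e, ((2 : ℝ) ^ p.2 + hw c p.1 p.2 + 1) = ∑ n ∈ T, g c e n := by
      rw [hT, sum_image]
      · refine sum_congr rfl fun p hp => ?_
        rw [(mem_filter.mp hp).2.symm]
        rfl
      · rintro ⟨a, b⟩ hp ⟨a', b'⟩ hq h
        have h2 := (mem_filter.mp hp).2
        have h3 := (mem_filter.mp hq).2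
        simp only at h2 h3 h
        rw [h2, h3, h]
    rw [h1]
    have hm : T.max' hTne ∈ T := T.max'_mem hTne
    obtain ⟨p, hp, hpm⟩ := mem_image.mp hm
    obtain ⟨hpS, hpe⟩ := mem_filter.mp hp
    obtain ⟨hpA, hpN⟩ := hS p hpS
    have h2 : n₀ e ≤ T.max' hTne := by
      rw [← hpm, ← hpe]
      exact hpA
    have h3 : 2 ^ Lf ε e (T.max' hTne) ≤ N := by
      rw [← hpm, ← hpe]
      exact hpN
    refine le_trans ?_ ((hn₀ e _ h2).2 N h3)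
    refine sum_le_sum_of_subset_of_nonneg ?_ (fun i _ _ => g_nonneg c e i)
    intro n hn
    rw [mem_range, Nat.lt_succ_iff]
    exact T.le_max' n hn
  have h0 : 0 ≤ f N := by
    obtain ⟨p, hp⟩ := hne
    have h1 := key p.1 (mem_image_of_mem _ hp)
    have h2 : 0 ≤ ∑ q ∈ S with q.1 = p.1, ((2 : ℝ) ^ q.2 + hw c q.1 q.2 + 1) :=
      sum_nonneg fun q _ => by positivity
    have h3 := h2.trans h1
    by_contra hneg
    rw [not_le] at hneg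
    have h4 : f N / 2 ^ (p.1 + 1) < 0 := div_neg_of_neg_of_pos hneg (by positivity)
    linarith
  calc ∑ p ∈ S, ((2 : ℝ) ^ p.2 + hw c p.1 p.2 + 1)
      = ∑ e ∈ S.image Prod.fst, ∑ p ∈ S with p.1 = e, ((2 : ℝ) ^ p.2 + hw c p.1 p.2 + 1) :=
        (sum_fiberwise_of_maps_to (fun p hp => mem_image_of_mem _ hp) _).symm
    _ ≤ ∑ e ∈ S.image Prod.fst, f N / 2 ^ (e + 1) := sum_le_sum key
    _ = f N * ∑ e ∈ S.image Prod.fst, (1 : ℝ) / 2 ^ (e + 1) := by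
        rw [mul_sum]
        exact sum_congr rfl fun e _ => by ring
    _ ≤ f N * 1 := mul_le_mul_of_nonneg_left (sum_half _) h0
    _ ≤ f N + d := by linarith

end Pool.Agent.H622R2.Ckt
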