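import Pool.Agent.H622R2.Ckt.Base

/-!
# Task CIO: a sparse set of codes, rich enough for infinitely often (helper584)
-/

namespace Pool.Agent.H622R2.Ckt

open Pool.Agent.NPC Pool.Agent.H620R2.Gauge Pool.Agent.H622R2.Exp Finset H568R2
open Filter (atTop)

namespace CIO

theorem lin_le {r : ℝ} (hr : 1 < r) (C : ℕ) : ∀ᶠ n : ℕ in atTop, (C : ℝ) * n ≤ r ^ n := by
  have h1 := tendsto_pow_const_div_const_pow_of_one_lt 1 hr
  have h2 : ∀ᶠ n : ℕ in atTop, (n : ℝ) ^ 1 / r ^ n < 1 / ((C : ℝ) + 1) :=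
    h1.eventually (gt_mem_nhds (by positivity))
  filter_upwards [h2] with n hn
  have hr0 : (0 : ℝ) < r ^ n := by positivity
  have hC : (0 : ℝ) < (C : ℝ) + 1 := by positivity
  rw [div_lt_div_iff₀ hr0 hC, pow_one, one_mul] at hn
  have : (0 : ℝ) ≤ n := Nat.cast_nonneg n
  nlinarith

theorem lin_le' {ε : ℝ} (hε : 0 < ε) (a b : ℕ) :
    ∀ᶠ n : ℕ in atTop, ((a * n + b : ℕ) : ℝ) ≤ 2 ^ (ε * n) := by
  have hr : (1 : ℝ) < 2 ^ ε := Real.one_lt_rpow (by norm_num) hε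
  filter_upwards [lin_le hr (a + b), Filter.eventually_ge_atTop 1] with n hn h1
  have h2 : (2 : ℝ) ^ (ε * n) = (2 ^ ε) ^ n := by
    rw [Real.rpow_mul (by norm_num), Real.rpow_natCast]
  rw [h2]
  refine le_trans ?_ hn
  have h3 : a * n + b ≤ (a + b) * n := by nlinarith
  exact_mod_cast h3

theorem cond_A (c : ℕ → ℕ) (ε : ℕ → ℝ) (e : ℕ) (hε : 0 < ε e) :
    ∀ᶠ n : ℕ in atTop, e + 2 * n + 3 + hw c e n ≤ Lf ε e n := by
  filter_upwards [lin_le' hε (c e + 4) (c e + 2 * e + 7)] with n hn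
  have h1 : (c e + 4) * n + (c e + 2 * e + 7) ≤ ⌈(2 : ℝ) ^ (ε e * n)⌉₊ := by
    have := hn.trans (Nat.le_ceil _)
    exact_mod_cast this
  unfold hw Lf
  have h2 : (c e + 4) * n + (c e + 2 * e + 7) =
      e + 2 * n + 3 + (c e * (n + 1) + 2 * n + e + 2) + 2 := by ring
  omega

theorem cond_B (c : ℕ → ℕ) (e : ℕ) : ∀ᶠ n : ℕ in atTop, hw c e n + 1 ≤ 2 ^ n := by
  filter_upwards [lin_le' one_pos (c e + 2) (c e + e + 3)] with n hn
  rw [one_mul, Real.rpow_natCast] at hn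
  have h1 : (c e + 2) * n + (c e + e + 3) ≤ 2 ^ n := by exact_mod_cast hn
  unfold hw
  have h2 : (c e + 2) * n + (c e + e + 3) = c e * (n + 1) + 2 * n + e + 2 + 1 := by ring
  omega

theorem tendsto_log : Filter.Tendsto (fun N : ℕ => Real.logb 2 (N : ℝ)) atTop atTop :=
  (Real.tendsto_logb_atTop (by norm_num)).comp tendsto_natCast_atTop_atTop

theorem asymp {ε s M : ℝ} (hε : 0 < ε) (hs : 1 / ε < s) :
    ∀ᶠ y : ℝ in atTop, M * (y + 2) ^ (1 / ε) ≤ y ^ s := by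
  have hd : 0 < s - 1 / ε := by linarith
  have h1 := (tendsto_rpow_atTop hd).eventually_ge_atTop (|M| * (3 : ℝ) ^ (1 / ε))
  filter_upwards [h1, Filter.eventually_ge_atTop 1] with y h3 h4
  have hy : 0 < y := by linarith
  have he : 0 < 1 / ε := by positivity
  calc M * (y + 2) ^ (1 / ε) ≤ |M| * (y + 2) ^ (1 / ε) :=
        mul_le_mul_of_nonneg_right (le_abs_self M) (by positivity)
    _ ≤ |M| * (3 * y) ^ (1 / ε) := by
        apply mul_le_mul_of_nonneg_left _ (abs_nonneg M)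
        exact Real.rpow_le_rpow (by positivity) (by linarith) he.le
    _ = (|M| * (3 : ℝ) ^ (1 / ε)) * y ^ (1 / ε) := by
        rw [Real.mul_rpow (by norm_num) hy.le]; ring
    _ ≤ y ^ (s - 1 / ε) * y ^ (1 / ε) := by
        apply mul_le_mul_of_nonneg_right h3 (by positivity)
    _ = y ^ s := by
        rw [← Real.rpow_add hy]; congr 1; ring

/-- the input length belonging to the threshold `N` -/
noncomputable def len (ε : ℝ) (N : ℕ) : ℕ := ⌈1 / ε * Real.logb 2 (Real.logb 2 N + 2)⌉₊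

theorem tendsto_len {ε : ℝ} (hε : 0 < ε) : Filter.Tendsto (len ε) atTop atTop := by
  have he : 0 < 1 / ε := by positivity
  have h1 : Filter.Tendsto (fun N : ℕ => Real.logb 2 (N : ℝ) + 2) atTop atTop :=
    Filter.tendsto_atTop_add_const_right _ _ tendsto_log
  have h2 : Filter.Tendsto (fun N : ℕ => Real.logb 2 (Real.logb 2 (N : ℝ) + 2)) atTop atTop :=
    (Real.tendsto_logb_atTop (by norm_num)).comp h1
  exact tendsto_nat_ceil_atTop.comp (h2.const_mul_atTop he)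

theorem core (c : ℕ → ℕ) (ε s : ℕ → ℝ) (hε : ∀ e, 0 < ε e ∧ ε e < 1)
    (hs : ∀ e, 1 / ε e < s e) (f : ℕ → ℝ)
    (hf : ∀ e, ¬ ∀ᶠ N : ℕ in atTop, ∃ N' ≥ N, f N' ≤ (Real.logb 2 N) ^ s e) (e n₀ : ℕ) (M : ℝ)
    (hM : 0 < M) :
    ∃ n ≥ n₀, e + 2 * n + 3 + hw c e n ≤ Lf ε e n ∧
      ∀ N ≥ 2 ^ Lf ε e n, M * ((2 : ℝ) ^ n + hw c e n + 1) ≤ f N := by
  have hε0 := (hε e).1
  have h1 := (tendsto_len hε0).eventually ((Filter.eventually_ge_atTop n₀).and
    ((cond_A c ε e hε0).and (cond_B c e)))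
  have h2 := tendsto_log.eventually ((asymp (M := 4 * M) hε0 (hs e)).and
    (Filter.eventually_ge_atTop 1))
  have h3 : ∃ᶠ N : ℕ in atTop, ¬ ∃ N' ≥ N, f N' ≤ (Real.logb 2 N) ^ s e :=
    Filter.not_eventually.1 (hf e)
  obtain ⟨N₀, hN1, ⟨hn0, hA, hB⟩, hasy, hy1⟩ := (h3.and_eventually (h1.and h2)).exists
  refine ⟨len (ε e) N₀, hn0, hA, fun N hN => ?_⟩
  push Not at hN1
  set y := Real.logb 2 (N₀ : ℝ) with hy
  set n := len (ε e) N₀ with hn
  have hy2 : 0 < y + 2 := by linarith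
  -- `2 ^ (ε n) ≥ y + 2`
  have hn1 : 1 / ε e * Real.logb 2 (y + 2) ≤ n := Nat.le_ceil _
  have hlg : 0 ≤ Real.logb 2 (y + 2) := Real.logb_nonneg (by norm_num) (by linarith)
  have hn2 : (n : ℝ) < 1 / ε e * Real.logb 2 (y + 2) + 1 :=
    Nat.ceil_lt_add_one (by positivity)
  have h4 : y + 2 ≤ 2 ^ (ε e * n) := by
    have h5 : Real.logb 2 (y + 2) ≤ ε e * n := by
      have := mul_le_mul_of_nonneg_left hn1 hε0.le
      rwa [← mul_assoc, mul_one_div_cancel hε0.ne', one_mul] at this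
    calc y + 2 = 2 ^ Real.logb 2 (y + 2) := by
          rw [Real.rpow_logb (by norm_num) (by norm_num) hy2]
      _ ≤ _ := Real.rpow_le_rpow_of_exponent_le (by norm_num) h5
  have h6 : y ≤ Lf ε e n := by
    have h7 := h4.trans (Nat.le_ceil _)
    unfold Lf
    have h8 : 2 ≤ ⌈(2 : ℝ) ^ (ε e * n)⌉₊ := by
      have : (2 : ℝ) ≤ ⌈(2 : ℝ) ^ (ε e * n)⌉₊ := by linarith
      exact_mod_cast this
    rw [Nat.cast_sub h8]
    push_cast
    linarith
  have hN0pos : (0 : ℝ) < N₀ := by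
    by_contra hcon
    have h8 : (N₀ : ℝ) = 0 := le_antisymm (not_lt.1 hcon) (Nat.cast_nonneg _)
    rw [hy, h8, Real.logb_zero] at hy1
    norm_num at hy1
  have h9 : (N₀ : ℝ) ≤ ((2 ^ Lf ε e n : ℕ) : ℝ) := by
    calc (N₀ : ℝ) = 2 ^ y := by
          rw [hy, Real.rpow_logb (by norm_num) (by norm_num) hN0pos]
      _ ≤ 2 ^ (Lf ε e n : ℝ) := Real.rpow_le_rpow_of_exponent_le (by norm_num) h6
      _ = _ := by rw [Real.rpow_natCast]; push_cast; rfl
  have h10 : N₀ ≤ N := by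
    have : N₀ ≤ 2 ^ Lf ε e n := by exact_mod_cast h9
    omega
  have h11 := hN1 N h10
  -- the cost
  have h12 : (2 : ℝ) ^ n ≤ 2 * (y + 2) ^ (1 / ε e) := by
    calc (2 : ℝ) ^ n = 2 ^ (n : ℝ) := (Real.rpow_natCast _ _).symm
      _ ≤ 2 ^ (1 / ε e * Real.logb 2 (y + 2) + 1) :=
        Real.rpow_le_rpow_of_exponent_le (by norm_num) hn2.le
      _ = 2 * (y + 2) ^ (1 / ε e) := by
        rw [Real.rpow_add (by norm_num), Real.rpow_one, mul_comm (1 / ε e),
          Real.rpow_mul (by norm_num), Real.rpow_logb (by norm_num) (by norm_num) hy2, mul_comm]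
  have h13 : ((hw c e n : ℝ) + 1) ≤ 2 ^ n := by exact_mod_cast hB
  nlinarith

end CIO

theorem choose_io (c : ℕ → ℕ) (ε s : ℕ → ℝ) (hε : ∀ e, 0 < ε e ∧ ε e < 1)
    (hs : ∀ e, 1 / ε e < s e) (f : ℕ → ℝ)
    (hf : ∀ e, ¬ ∀ᶠ N : ℕ in atTop, ∃ N' ≥ N, f N' ≤ (Real.logb 2 N) ^ s e) :
    ∃ Act : Set (ℕ × ℕ), (∀ e, ∃ᶠ n in atTop, (e, n) ∈ Act) ∧ Cheap f c (Lf ε) Act := by
  have hcore := fun i : ℕ => CIO.core c ε s hε hs f hf (Nat.unpair i).1 i (2 ^ (i + 1))
    (by positivity)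
  choose n hn hA hN using hcore
  refine ⟨{p | ∃ i, p = ((Nat.unpair i).1, n i)}, ?_, ?_, ?_⟩
  · intro e
    rw [Filter.frequently_atTop]
    intro n₀
    refine ⟨n (Nat.pair e n₀), (Nat.right_le_pair e n₀).trans (hn _), Nat.pair e n₀, ?_⟩
    rw [Nat.unpair_pair]
  · rintro p ⟨i, rfl⟩
    exact hA i
  · set N₁ := 2 ^ Lf ε (Nat.unpair 0).1 (n 0) with hN₁
    have hpos : ∀ i, ∀ N ≥ 2 ^ Lf ε (Nat.unpair i).1 (n i), 0 ≤ f N := by
      intro i N h
      refine le_trans ?_ (hN i N h)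
      positivity
    have hd0 : 0 ≤ ∑ i ∈ Finset.range N₁, |f i| := Finset.sum_nonneg fun i _ => abs_nonneg _
    refine ⟨∑ i ∈ Finset.range N₁, |f i|, fun N S hS => ?_⟩
    rcases S.eq_empty_or_nonempty with rfl | hne
    · rw [Finset.sum_empty]
      by_cases h : N < N₁
      · have h1 : |f N| ≤ ∑ i ∈ Finset.range N₁, |f i| :=
          Finset.single_le_sum (f := fun i => |f i|) (fun i _ => abs_nonneg _)
            (Finset.mem_range.2 h)
        have h2 := neg_abs_le (f N)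
        linarith
      · have := hpos 0 N (not_lt.1 h)
        linarith
    · have hi : ∀ p : ℕ × ℕ, ∃ i, p ∈ S → p = ((Nat.unpair i).1, n i) := by
        intro p
        by_cases hp : p ∈ S
        · obtain ⟨i, hi⟩ := (hS p hp).1
          exact ⟨i, fun _ => hi⟩
        · exact ⟨0, fun h => absurd h hp⟩
      choose g hg using hi
      have hfN : 0 ≤ f N := by
        obtain ⟨p, hp⟩ := hne
        have h1 := (hS p hp).2
        rw [hg p hp] at h1
        exact hpos _ N h1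
      have h2 : ∀ p ∈ S, ((2 : ℝ) ^ p.2 + hw c p.1 p.2 + 1) ≤ (1 / 2 : ℝ) ^ (g p + 1) * f N := by
        intro p hp
        have h1 := (hS p hp).2
        have h3 := hg p hp
        rw [h3] at h1
        have h4 := hN (g p) N h1
        have h5 : ((2 : ℝ) ^ p.2 + hw c p.1 p.2 + 1) =
            (2 : ℝ) ^ n (g p) + hw c (Nat.unpair (g p)).1 (n (g p)) + 1 := by
          conv_lhs => rw [h3]
        rw [h5]
        have h6 : (1 / 2 : ℝ) ^ (g p + 1) * 2 ^ (g p + 1) = 1 := by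
          rw [← mul_pow]; norm_num
        calc (2 : ℝ) ^ n (g p) + hw c (Nat.unpair (g p)).1 (n (g p)) + 1
            = (1 / 2 : ℝ) ^ (g p + 1) * (2 ^ (g p + 1) *
                ((2 : ℝ) ^ n (g p) + hw c (Nat.unpair (g p)).1 (n (g p)) + 1)) := by
              rw [← mul_assoc, h6, one_mul]
          _ ≤ _ := mul_le_mul_of_nonneg_left h4 (by positivity)
      have hinj : Set.InjOn g S := by
        intro p hp q hq hpq
        rw [hg p hp, hg q hq, hpq]
      have h7 : ∑ p ∈ S, (1 / 2 : ℝ) ^ (g p + 1) ≤ 1 := by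
        classical
        rw [← Finset.sum_image (f := fun i => (1 / 2 : ℝ) ^ (i + 1)) hinj]
        obtain ⟨K, hK⟩ : ∃ K, S.image g ⊆ Finset.range K :=
          ⟨(S.image g).sup id + 1, fun i hi => by
            rw [Finset.mem_range]
            exact Nat.lt_succ_of_le (Finset.le_sup (f := id) hi)⟩
        refine (Finset.sum_le_sum_of_subset_of_nonneg hK fun _ _ _ => by positivity).trans ?_
        have h8 : ∑ i ∈ Finset.range K, (1 / 2 : ℝ) ^ (i + 1) = 1 - (1 / 2) ^ K := by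
          clear hK
          induction K with
          | zero => simp
          | succ K ih => rw [Finset.sum_range_succ, ih, pow_succ]; ring
        rw [h8]
        have : (0 : ℝ) ≤ (1 / 2) ^ K := by positivity
        linarith
      calc ∑ p ∈ S, ((2 : ℝ) ^ p.2 + hw c p.1 p.2 + 1)
          ≤ ∑ p ∈ S, (1 / 2 : ℝ) ^ (g p + 1) * f N := Finset.sum_le_sum h2
        _ = (∑ p ∈ S, (1 / 2 : ℝ) ^ (g p + 1)) * f N := by rw [Finset.sum_mul]
        _ ≤ 1 * f N := mul_le_mul_of_nonneg_right h7 hfN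
        _ ≤ f N + ∑ i ∈ Finset.range N₁, |f i| := by linarith

end Pool.Agent.H622R2.Ckt
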