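import Pool.Agent.H622R2.Ckt.Base

/-!
# One oracle gate
-/

namespace Pool.Agent.H622R2.Ckt

open Pool.Agent.NPC Pool.Agent.H620R2.Gauge Pool.Agent.H622R2.Exp Finset H568R2

theorem CIR.map_getD (x : List Bool) : (List.range x.length).map (fun i => x.getD i false) = x := by
  apply List.ext_getElem
  · simp
  · intro i h1 h2
    simp [List.getElem?_eq_getElem h2]

theorem exists_circuit (u v : List Bool) (n : ℕ) : ∃ C : Circuit,
    C.size = u.length + n + v.length + 1 ∧
    ∀ (A : Oracle) (x : List Bool), x.length = n → C.eval A x = A (u ++ x ++ v) := by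
  refine ⟨⟨[Gate.ask (u.map Wire.cst ++ (List.range n).map Wire.inp ++ v.map Wire.cst)],
    Wire.gate 0⟩, ?_, ?_⟩
  · simp [Circuit.size, Gate.size, Nat.add_assoc]
  · intro A x hx
    subst hx
    have h1 : ∀ (w x z : List Bool), (w.map Wire.cst).map (Wire.val x z) = w := by
      intro w x z
      rw [List.map_map]
      exact List.map_id w
    have h2 : ((List.range x.length).map Wire.inp).map (Wire.val x []) = x := by
      rw [List.map_map]
      exact CIR.map_getD x
    simp only [Circuit.eval, gateVals, List.foldl_cons, List.foldl_nil, Gate.val, Wire.val,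
      List.map_append, h1, h2, List.nil_append]
    simp

theorem small_of_code {A : Oracle} {L : Set (List Bool)} {ε : ℕ → ℝ} {e n : ℕ} {w : List Bool}
    (hL : e + 2 * n + 2 + w.length ≤ Lf ε e n)
    (h : ∀ x : List Bool, x.length = n → (A (cdw (Lf ε e n) e w x) = true ↔ x ∈ L)) :
    Small A L (2 ^ (ε e * n)) n := by
  obtain ⟨C, hC1, hC2⟩ := exists_circuit
    (List.replicate e true ++ false :: (List.replicate n true ++ false :: w))
    (List.replicate (Lf ε e n - (e + 2 * n + 2 + w.length)) false) n
  refine ⟨C, ?_, ?_⟩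
  · have h1 : C.size = Lf ε e n + 1 := by
      rw [hC1]
      simp only [List.length_append, List.length_replicate, List.length_cons]
      omega
    have h2 : C.size + 1 = ⌈(2 : ℝ) ^ (ε e * n)⌉₊ := by
      rw [h1]
      unfold Lf at hL ⊢
      omega
    have h3 : (⌈(2 : ℝ) ^ (ε e * n)⌉₊ : ℝ) < (2 : ℝ) ^ (ε e * n) + 1 :=
      Nat.ceil_lt_add_one (by positivity)
    rw [← h2] at h3
    push_cast at h3
    linarith
  · intro x hx
    rw [hC2 A x hx, ← h x hx]
    unfold cdw
    rw [hx]

end Pool.Agent.H622R2.Ckt
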