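import Pool.Agent.H622R2.Ckt.Base

/-!
# The number of circuits of a given size
-/

namespace Pool.Agent.H622R2.Ckt

open Pool.Agent.NPC Pool.Agent.H620R2.Gauge Pool.Agent.H622R2.Exp Finset H568R2

namespace CNT

/-- wires to nonexistent inputs or gates are replaced by `false` -/
def nrmW (n k : ℕ) : Wire → Wire
  | .inp i => if i < n then .inp i else .cst false
  | .cst b => .cst b
  | .gate j => if j < k then .gate j else .cst false

/-- normal form of a gate -/
def nrmG (n k : ℕ) : Gate → Gate
  | .and r s => .and (nrmW n k r) (nrmW n k s)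
  | .or r s => .or (nrmW n k r) (nrmW n k s)
  | .not r => .not (nrmW n k r)
  | .ask l => .ask (l.map (nrmW n k))

theorem nrmW_val {n k : ℕ} {x v : List Bool} (hx : x.length = n) (hv : v.length ≤ k) (r : Wire) :
    (nrmW n k r).val x v = r.val x v := by
  cases r with
  | inp i =>
    simp only [nrmW]
    split_ifs with h
    · rfl
    · simp only [Wire.val]
      rw [List.getD_eq_default _ _ (by omega)]
  | cst b => rfl
  | gate j =>
    simp only [nrmW]
    split_ifs with h
    · rfl
    · simp only [Wire.val]
      rw [List.getD_eq_default _ _ (by omega)]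

theorem nrmG_val {n k : ℕ} {x v : List Bool} (hx : x.length = n) (hv : v.length ≤ k) (A : Oracle)
    (g : Gate) : (nrmG n k g).val A x v = g.val A x v := by
  cases g with
  | and r s => simp only [nrmG, Gate.val, nrmW_val hx hv]
  | or r s => simp only [nrmG, Gate.val, nrmW_val hx hv]
  | not r => simp only [nrmG, Gate.val, nrmW_val hx hv]
  | ask l =>
    simp only [nrmG, Gate.val, List.map_map]
    congr 1
    apply List.map_congr_left
    intro r _
    exact nrmW_val hx hv r

theorem nrmG_size (n k : ℕ) (g : Gate) : (nrmG n k g).size = g.size := by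
  cases g <;> simp [nrmG, Gate.size]

theorem foldl_nrm {n k : ℕ} {x : List Bool} (hx : x.length = n) (A : Oracle) (gs : List Gate) :
    ∀ v : List Bool, v.length + gs.length ≤ k →
    (gs.map (nrmG n k)).foldl (fun v g => v ++ [g.val A x v]) v =
      gs.foldl (fun v g => v ++ [g.val A x v]) v := by
  induction gs with
  | nil => intro v _; rfl
  | cons g gs ih =>
    intro v hv
    rw [List.length_cons] at hv
    simp only [List.map_cons, List.foldl_cons]
    rw [nrmG_val hx (by omega)]
    apply ih
    rw [List.length_append, List.length_singleton]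
    omega

theorem length_foldl (A : Oracle) (x : List Bool) (gs : List Gate) : ∀ v : List Bool,
    (gs.foldl (fun v g => v ++ [g.val A x v]) v).length = v.length + gs.length := by
  induction gs with
  | nil => intro v; rfl
  | cons g gs ih =>
    intro v
    rw [List.foldl_cons, ih, List.length_append, List.length_singleton, List.length_cons]
    omega

theorem length_gates_le (C : Circuit) : C.gates.length ≤ C.size := by
  unfold Circuit.size
  induction C.gates with
  | nil => simp
  | cons g gs ih =>
    rw [List.map_cons, List.sum_cons, List.length_cons]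
    have : 1 ≤ g.size := by
      cases g <;> simp [Gate.size]
    omega

/-- normal form of a circuit -/
def nrm (n k : ℕ) (C : Circuit) : Circuit := ⟨C.gates.map (nrmG n k), nrmW n k C.out⟩

theorem nrm_size (n k : ℕ) (C : Circuit) : (nrm n k C).size = C.size := by
  unfold Circuit.size nrm
  rw [List.map_map]
  congr 1
  apply List.map_congr_left
  intro g _
  exact nrmG_size n k g

theorem nrm_eval {n k : ℕ} {C : Circuit} (hC : C.size ≤ k) (A : Oracle) {x : List Bool}
    (hx : x.length = n) : (nrm n k C).eval A x = C.eval A x := by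
  have h1 := (length_gates_le C).trans hC
  unfold Circuit.eval
  have h2 : gateVals A x (nrm n k C).gates = gateVals A x C.gates := by
    unfold gateVals nrm
    exact foldl_nrm hx A C.gates [] (by simpa using h1)
  rw [h2]
  unfold nrm
  apply nrmW_val hx
  unfold gateVals
  rw [length_foldl]
  simpa using h1

/-- one step of the decoding -/
def step (p : List Wire × List Gate) : Wire ⊕ Fin 6 → List Wire × List Gate
  | .inl w => (p.1 ++ [w], p.2)
  | .inr 0 => ([], p.2 ++ [.and (p.1.getD 0 (.cst false)) (p.1.getD 1 (.cst false))])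
  | .inr 1 => ([], p.2 ++ [.or (p.1.getD 0 (.cst false)) (p.1.getD 1 (.cst false))])
  | .inr 2 => ([], p.2 ++ [.not (p.1.getD 0 (.cst false))])
  | .inr 3 => ([], p.2 ++ [.ask p.1])
  | .inr _ => p

/-- decoding of a word -/
def decode (w : List (Wire ⊕ Fin 6)) : Circuit :=
  ⟨(w.foldl step ([], [])).2, (w.foldl step ([], [])).1.getD 0 (.cst false)⟩

/-- the word of a gate -/
def enc : Gate → List (Wire ⊕ Fin 6)
  | .and r s => [.inl r, .inl s, .inr 0]
  | .or r s => [.inl r, .inl s, .inr 1]
  | .not r => [.inl r, .inr 2]
  | .ask l => l.map Sum.inl ++ [.inr 3]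

theorem foldl_inl (l : List Wire) (gs : List Gate) : ∀ ops : List Wire,
    (l.map (Sum.inl : Wire → Wire ⊕ Fin 6)).foldl step (ops, gs) = (ops ++ l, gs) := by
  induction l with
  | nil => intro ops; simp
  | cons w l ih =>
    intro ops
    rw [List.map_cons, List.foldl_cons]
    change (l.map (Sum.inl : Wire → Wire ⊕ Fin 6)).foldl step (ops ++ [w], gs) = _
    rw [ih, List.append_assoc]
    rfl

theorem foldl_enc (g : Gate) (gs : List Gate) :
    (enc g).foldl step ([], gs) = ([], gs ++ [g]) := by
  cases g with
  | and r s => rfl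
  | or r s => rfl
  | not r => rfl
  | ask l =>
    unfold enc
    rw [List.foldl_append, foldl_inl]
    rfl

theorem foldl_encs (gs : List Gate) : ∀ gs0 : List Gate,
    (gs.flatMap enc).foldl step ([], gs0) = ([], gs0 ++ gs) := by
  induction gs with
  | nil => intro gs0; simp
  | cons g gs ih =>
    intro gs0
    rw [List.flatMap_cons, List.foldl_append, foldl_enc, ih, List.append_assoc]
    rfl

theorem foldl_nop (p : List Wire × List Gate) (t : ℕ) :
    (List.replicate t (Sum.inr 5 : Wire ⊕ Fin 6)).foldl step p = p := by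
  induction t with
  | zero => rfl
  | succ t ih =>
    rw [List.replicate_succ, List.foldl_cons]
    exact ih

/-- the word of a circuit -/
def encC (C : Circuit) (t : ℕ) : List (Wire ⊕ Fin 6) :=
  C.gates.flatMap enc ++ (Sum.inl C.out :: List.replicate t (Sum.inr 5))

theorem decode_encC (C : Circuit) (t : ℕ) : decode (encC C t) = C := by
  have h : (encC C t).foldl step ([], []) = ([C.out], C.gates) := by
    unfold encC
    rw [List.foldl_append, foldl_encs, List.foldl_cons]
    exact foldl_nop _ t
  unfold decode
  rw [h]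
  rfl

theorem length_enc_le (g : Gate) : (enc g).length ≤ 3 * g.size := by
  cases g with
  | and r s => simp [enc, Gate.size]
  | or r s => simp [enc, Gate.size]
  | not r => simp [enc, Gate.size]
  | ask l =>
    simp only [enc, Gate.size, List.length_append, List.length_map, List.length_singleton]
    omega

theorem length_encs_le (gs : List Gate) : (gs.flatMap enc).length ≤ 3 * (gs.map Gate.size).sum := by
  induction gs with
  | nil => simp
  | cons g gs ih =>
    rw [List.flatMap_cons, List.length_append, List.map_cons, List.sum_cons]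
    have := length_enc_le g
    omega

/-- the letters -/
abbrev Sy (n k : ℕ) : Type := (Fin n ⊕ Bool ⊕ Fin k) ⊕ Fin 6

/-- from letters to wires -/
def toWire {n k : ℕ} : Fin n ⊕ Bool ⊕ Fin k → Wire
  | .inl i => .inp i
  | .inr (.inl b) => .cst b
  | .inr (.inr j) => .gate j

theorem nrmW_range (n k : ℕ) (r : Wire) : ∃ w : Fin n ⊕ Bool ⊕ Fin k, toWire w = nrmW n k r := by
  cases r with
  | inp i =>
    simp only [nrmW]
    split_ifs with h
    · exact ⟨.inl ⟨i, h⟩, rfl⟩
    · exact ⟨.inr (.inl false), rfl⟩
  | cst b => exact ⟨.inr (.inl b), rfl⟩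
  | gate j =>
    simp only [nrmW]
    split_ifs with h
    · exact ⟨.inr (.inr ⟨j, h⟩), rfl⟩
    · exact ⟨.inr (.inl false), rfl⟩

theorem enc_range (n k : ℕ) (g : Gate) (y : Wire ⊕ Fin 6) (hy : y ∈ enc (nrmG n k g)) :
    y ∈ Set.range (Sum.map toWire id : Sy n k → Wire ⊕ Fin 6) := by
  have hr : ∀ r : Wire, (Sum.inl (nrmW n k r) : Wire ⊕ Fin 6) ∈
      Set.range (Sum.map toWire id : Sy n k → Wire ⊕ Fin 6) := by
    intro r
    obtain ⟨w, hw⟩ := nrmW_range n k r
    exact ⟨Sum.inl w, by rw [Sum.map_inl, hw]⟩
  have hi : ∀ i : Fin 6, (Sum.inr i : Wire ⊕ Fin 6) ∈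
      Set.range (Sum.map toWire id : Sy n k → Wire ⊕ Fin 6) := fun i => ⟨Sum.inr i, rfl⟩
  cases g with
  | and r s =>
    simp only [nrmG, enc, List.mem_cons, List.not_mem_nil, or_false] at hy
    rcases hy with rfl | rfl | rfl
    · exact hr _
    · exact hr _
    · exact hi _
  | or r s =>
    simp only [nrmG, enc, List.mem_cons, List.not_mem_nil, or_false] at hy
    rcases hy with rfl | rfl | rfl
    · exact hr _
    · exact hr _
    · exact hi _
  | not r =>
    simp only [nrmG, enc, List.mem_cons, List.not_mem_nil, or_false] at hy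
    rcases hy with rfl | rfl
    · exact hr _
    · exact hi _
  | ask l =>
    simp only [nrmG, enc, List.mem_append, List.mem_map, List.mem_cons, List.not_mem_nil,
      or_false] at hy
    rcases hy with ⟨w, ⟨r, _, rfl⟩, rfl⟩ | rfl
    · exact hr _
    · exact hi _

theorem encC_range (n k : ℕ) (C : Circuit) (t : ℕ) (y : Wire ⊕ Fin 6)
    (hy : y ∈ encC (nrm n k C) t) :
    y ∈ Set.range (Sum.map toWire id : Sy n k → Wire ⊕ Fin 6) := by
  unfold encC nrm at hy
  rw [List.mem_append] at hy
  rcases hy with hy | hy
  · obtain ⟨g, hg, hyg⟩ := List.mem_flatMap.1 hy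
    obtain ⟨g', _, rfl⟩ := List.mem_map.1 hg
    exact enc_range n k g' y hyg
  · rcases List.mem_cons.1 hy with rfl | hy
    · obtain ⟨w, hw⟩ := nrmW_range n k C.out
      exact ⟨Sum.inl w, by rw [Sum.map_inl, hw]⟩
    · rw [List.mem_replicate] at hy
      rw [hy.2]
      exact ⟨Sum.inr 5, rfl⟩

end CNT

theorem exists_circuits (n k : ℕ) : ∃ F : Finset Circuit, F.card ≤ nC n k ∧
    ∀ C : Circuit, C.size ≤ k → ∃ C' ∈ F, C'.size ≤ k ∧
      ∀ (A : Oracle) (x : List Bool), x.length = n → C'.eval A x = C.eval A x := by
  classical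
  refine ⟨(Finset.univ : Finset (Fin (4 * k + 4) → CNT.Sy n k)).image
    (fun w => CNT.decode ((List.ofFn w).map (Sum.map CNT.toWire id))), ?_, ?_⟩
  · refine card_image_le.trans (le_of_eq ?_)
    rw [card_univ, Fintype.card_pi]
    simp only [Finset.prod_const, card_univ, Fintype.card_sum, Fintype.card_fin, Fintype.card_bool]
    unfold nC
    congr 1
    omega
  · intro C hC
    refine ⟨CNT.nrm n k C, ?_, by rw [CNT.nrm_size]; exact hC,
      fun A x hx => CNT.nrm_eval hC A hx⟩
    have hlen : ((CNT.nrm n k C).gates.flatMap CNT.enc).length ≤ 3 * k := by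
      refine (CNT.length_encs_le _).trans ?_
      have := CNT.nrm_size n k C
      unfold Circuit.size at this hC
      omega
    obtain ⟨t, ht⟩ : ∃ t, (CNT.encC (CNT.nrm n k C) t).length = 4 * k + 4 := by
      refine ⟨4 * k + 3 - ((CNT.nrm n k C).gates.flatMap CNT.enc).length, ?_⟩
      unfold CNT.encC
      rw [List.length_append, List.length_cons, List.length_replicate]
      omega
    have hr : CNT.encC (CNT.nrm n k C) t ∈
        Set.range (List.map (Sum.map CNT.toWire id : CNT.Sy n k → Wire ⊕ Fin 6)) := by
      rw [Set.range_list_map]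
      exact CNT.encC_range n k C t
    obtain ⟨w, hw⟩ := hr
    have hwl : w.length = 4 * k + 4 := by
      rw [← ht, ← hw, List.length_map]
    refine mem_image.2 ⟨fun i => w.get (i.cast hwl.symm), mem_univ _, ?_⟩
    have h1 : List.ofFn (fun i : Fin (4 * k + 4) => w.get (i.cast hwl.symm)) = w := by
      apply List.ext_getElem
      · rw [List.length_ofFn, hwl]
      · intro i h1 h2
        rw [List.getElem_ofFn]
        rfl
    rw [h1, hw, CNT.decode_encC]

end Pool.Agent.H622R2.Ckt
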