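import Pool.Agent.H622R2.Exp.Defs

/-!
# Boolean circuits with oracle gates

(Continues `Pool.Agent.H620R2.Gauge.Defs` and `Pool.Agent.H622R2.Exp.Defs`.)
-/

namespace Pool.Agent.H622R2.Ckt

open Pool.Agent.NPC Pool.Agent.H620R2.Gauge

/-- A wire of a circuit carries an input bit, a constant, or the value of a gate. -/
inductive Wire : Type
  | inp (i : ℕ)
  | cst (b : Bool)
  | gate (j : ℕ)

/-- A gate: AND and OR of two wires, NOT of a wire, and the oracle gate, which asks whether the
string of the bits carried by a list of wires is in the oracle. -/
inductive Gate : Type
  | and (r s : Wire)
  | or (r s : Wire)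
  | not (r : Wire)
  | ask (l : List Wire)

/-- A circuit: a list of gates, in which every gate uses the inputs and values of the gates before
it in the list, and an output wire. -/
structure Circuit : Type where
  /-- the gates -/
  gates : List Gate
  /-- the output wire -/
  out : Wire

/-- The bit carried by a wire, if the input is `x` and `v` is the list of the values of the gates
computed so far. (Wires to nonexistent inputs or gates carry the bit `false`.) -/
def Wire.val (x v : List Bool) : Wire → Bool
  | .inp i => x.getD i false
  | .cst b => b
  | .gate j => v.getD j false

/-- The value of a gate with oracle `A`. -/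
def Gate.val (A : Oracle) (x v : List Bool) : Gate → Bool
  | .and r s => r.val x v && s.val x v
  | .or r s => r.val x v || s.val x v
  | .not r => !(r.val x v)
  | .ask l => A (l.map (Wire.val x v))

/-- The list of the values of all gates. -/
def gateVals (A : Oracle) (x : List Bool) (gs : List Gate) : List Bool :=
  gs.foldl (fun v g => v ++ [g.val A x v]) []

/-- The output of the circuit with oracle `A` on input `x`. -/
def Circuit.eval (C : Circuit) (A : Oracle) (x : List Bool) : Bool :=
  C.out.val x (gateVals A x C.gates)

/-- The size of a gate: `1` for AND, OR and NOT, and one more than the number of the wires for an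
oracle gate. -/
def Gate.size : Gate → ℕ
  | .ask l => l.length + 1
  | _ => 1

/-- The size of a circuit: the sum of the sizes of its gates. -/
def Circuit.size (C : Circuit) : ℕ := (C.gates.map Gate.size).sum

/-- Relative to `A`, the language `L` has a circuit of size less than `s` for the inputs of
length `n`. -/
def Small (A : Oracle) (L : Set (List Bool)) (s : ℝ) (n : ℕ) : Prop :=
  ∃ C : Circuit, (C.size : ℝ) < s ∧ ∀ x : List Bool, x.length = n → (x ∈ L ↔ C.eval A x = true)

end Pool.Agent.H622R2.Ckt
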