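import Pool.Agent.H622R2.Ckt.Base

/-!
# A circuit only asks strings shorter than its size
-/

namespace Pool.Agent.H622R2.Ckt

open Pool.Agent.NPC Pool.Agent.H620R2.Gauge Pool.Agent.H622R2.Exp Finset H568R2

theorem LOC.gate_size_le {C : Circuit} {g : Gate} (hg : g ∈ C.gates) : g.size ≤ C.size :=
  List.single_le_sum (fun _ _ => Nat.zero_le _) _ (List.mem_map_of_mem hg)

theorem LOC.gateVals_congr {A A' : Oracle} {s : ℕ} (h : ∀ y : List Bool, y.length < s → A y = A' y)
    (x : List Bool) (gs : List Gate) (hgs : ∀ g ∈ gs, g.size ≤ s) :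
    gateVals A x gs = gateVals A' x gs := by
  unfold gateVals
  apply List.foldl_ext
  intro v g hg
  congr 2
  cases g with
  | and r t => rfl
  | or r t => rfl
  | not r => rfl
  | ask l =>
    have h1 := hgs _ hg
    simp only [Gate.size] at h1
    exact h _ (by rw [List.length_map]; omega)

theorem eval_local (C : Circuit) (A A' : Oracle)
    (h : ∀ y : List Bool, y.length < C.size → A y = A' y) (x : List Bool) :
    C.eval A x = C.eval A' x := by
  unfold Circuit.eval
  rw [LOC.gateVals_congr h x C.gates fun g hg => LOC.gate_size_le hg]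

end Pool.Agent.H622R2.Ckt
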