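import Pool.Agent.H622R2.Ckt.CNT
import Pool.Agent.H622R2.Ckt.LOC

/-!
# Task EVB: probability that a small circuit decides the test language (helper152)
-/

namespace Pool.Agent.H622R2.Ckt

open Pool.Agent.NPC Pool.Agent.H620R2.Gauge Finset H568R2

namespace EVB

/-- the position of the string asked by the test language on input `g` -/
def pos (n m N : ℕ) (h : 2 ^ (n + m + 1) ≤ N) (g : Fin n → Bool) : Fin N :=
  ⟨idx (List.ofFn g ++ List.replicate m false), by
    have h1 := idx_lt (List.ofFn g ++ List.replicate m false)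
    rw [List.length_append, List.length_ofFn, List.length_replicate] at h1
    omega⟩

theorem idx_inj {y y' : List Bool} (h : idx y = idx y') : y = y' := by
  rw [← str_idx y, ← str_idx y', h]

theorem pos_inj (n m N : ℕ) (h : 2 ^ (n + m + 1) ≤ N) : Function.Injective (pos n m N h) := by
  intro g g' hg
  have h1 : idx (List.ofFn g ++ List.replicate m false) =
      idx (List.ofFn g' ++ List.replicate m false) := congrArg Fin.val hg
  exact List.ofFn_injective (List.append_cancel_right (idx_inj h1))

/-- the words for which the circuit `C` decides the test language -/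
def Dec (C : Circuit) (n m N : ℕ) (v : Fin N → Bool) : Prop :=
  ∀ x : List Bool, x.length = n →
    (orc N v (x ++ List.replicate m false) = true ↔ C.eval (orc N v) x = true)

open Classical in
theorem card_dec (C : Circuit) (n m N : ℕ) (hC : C.size ≤ m) (h : 2 ^ (n + m + 1) ≤ N) :
    (univ.filter (fun v : Fin N → Bool => Dec C n m N v)).card ≤ 2 ^ (N - 2 ^ n) := by
  set J : Finset (Fin N) := univ.image (pos n m N h) with hJ
  have hJc : J.card = 2 ^ n := by
    rw [hJ, card_image_of_injective _ (pos_inj n m N h), card_univ, Fintype.card_fun,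
      Fintype.card_bool, Fintype.card_fin]
  have hcard : Fintype.card ({i : Fin N // i ∉ J} → Bool) = 2 ^ (N - 2 ^ n) := by
    rw [Fintype.card_fun, Fintype.card_bool]
    congr 1
    rw [Fintype.card_subtype_compl, Fintype.card_fin, Fintype.card_coe, hJc]
  rw [← hcard, ← card_univ]
  refine card_le_card_of_injOn (fun v i => v i.1) (fun _ _ => mem_coe.2 (mem_univ _)) ?_
  intro v hv v' hv' hvv
  rw [mem_coe, mem_filter] at hv hv'
  have hoff : ∀ i : Fin N, i ∉ J → v i = v' i := fun i hi => congrFun hvv ⟨i, hi⟩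
  have hloc : ∀ x : List Bool, C.eval (orc N v) x = C.eval (orc N v') x := by
    intro x
    apply eval_local
    intro y hy
    unfold orc
    split_ifs with hy'
    · apply hoff
      intro hmem
      rw [hJ, mem_image] at hmem
      obtain ⟨g, -, hg⟩ := hmem
      have h1 : idx (List.ofFn g ++ List.replicate m false) = idx y := congrArg Fin.val hg
      have h2 := congrArg List.length (idx_inj h1)
      rw [List.length_append, List.length_replicate] at h2
      omega
    · rfl
  funext i
  by_cases hi : i ∈ J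
  · rw [hJ, mem_image] at hi
    obtain ⟨g, -, rfl⟩ := hi
    have e : ∀ u : Fin N → Bool, orc N u (List.ofFn g ++ List.replicate m false) =
        u (pos n m N h g) := by
      intro u
      have hlt : idx (List.ofFn g ++ List.replicate m false) < N := (pos n m N h g).2
      unfold orc
      rw [dif_pos hlt]
      rfl
    have h1 := hv.2 (List.ofFn g) (List.length_ofFn)
    have h2 := hv'.2 (List.ofFn g) (List.length_ofFn)
    rw [e] at h1 h2
    rw [hloc] at h1
    exact Bool.eq_iff_iff.2 (h1.trans h2.symm)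
  · exact hoff i hi

end EVB

open Classical in
theorem evK_bound (a b n k N : ℕ) (hk : k ≤ mT a b n) (hN : 2 ^ (n + mT a b n + 1) ≤ N) :
    Ex unif (fun v : Fin N → Bool => if EvK a b n k N v then (1 : ℝ) else 0) ≤
      nC n k / 2 ^ 2 ^ n := by
  obtain ⟨F, hF, hF'⟩ := exists_circuits n k
  rw [← card_of_Ex]
  have hsub : univ.filter (fun v : Fin N → Bool => EvK a b n k N v) ⊆
      (F.filter (fun C => C.size ≤ k)).biUnion
        (fun C => univ.filter (fun v : Fin N → Bool => EVB.Dec C n (mT a b n) N v)) := by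
    intro v hv
    rw [mem_filter] at hv
    obtain ⟨-, C, hC, hCv⟩ := hv
    obtain ⟨C', hC'F, hC'k, hC'⟩ := hF' C hC
    rw [mem_biUnion]
    refine ⟨C', mem_filter.2 ⟨hC'F, hC'k⟩, mem_filter.2 ⟨mem_univ _, ?_⟩⟩
    intro x hx
    rw [hC' (orc N v) x hx]
    exact hCv x hx
  have hcard : (univ.filter (fun v : Fin N → Bool => EvK a b n k N v)).card ≤
      nC n k * 2 ^ (N - 2 ^ n) := by
    refine (card_le_card hsub).trans (card_biUnion_le.trans ?_)
    refine (sum_le_card_nsmul _ _ (2 ^ (N - 2 ^ n)) ?_).trans ?_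
    · intro C hC
      exact EVB.card_dec C n (mT a b n) N ((mem_filter.1 hC).2.trans hk) hN
    · rw [smul_eq_mul]
      exact Nat.mul_le_mul_right _ ((card_filter_le _ _).trans hF)
  have h2n : 2 ^ n ≤ N := le_trans (Nat.pow_le_pow_right (by norm_num) (by omega)) hN
  have h3 : (2 : ℝ) ^ (N - 2 ^ n) * 2 ^ (-(N : ℝ)) = 1 / 2 ^ 2 ^ n := by
    rw [Real.rpow_neg (by norm_num), Real.rpow_natCast, pow_sub₀ _ (by norm_num) h2n]
    field_simp
  calc ((univ.filter (fun v : Fin N → Bool => EvK a b n k N v)).card : ℝ) * 2 ^ (-(N : ℝ))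
      ≤ (nC n k * 2 ^ (N - 2 ^ n) : ℝ) * 2 ^ (-(N : ℝ)) := by
        apply mul_le_mul_of_nonneg_right _ (by positivity)
        exact_mod_cast hcard
    _ = nC n k * ((2 : ℝ) ^ (N - 2 ^ n) * 2 ^ (-(N : ℝ))) := by ring
    _ = nC n k / 2 ^ 2 ^ n := by rw [h3]; ring

end Pool.Agent.H622R2.Ckt
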