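import Pool.Agent.H622R2.Ckt.LOC

/-!
# Small circuits for the test language give the event
-/

namespace Pool.Agent.H622R2.Ckt

open Pool.Agent.NPC Pool.Agent.H620R2.Gauge Pool.Agent.H622R2.Exp Finset H568R2

theorem floor_le_mT {a b n : ℕ} {ε : ℝ} (hε : ε * b ≤ a) (hb : 0 < b) :
    ⌊(2 : ℝ) ^ (ε * n)⌋₊ ≤ mT a b n := by
  have hb' : (0 : ℝ) < b := by exact_mod_cast hb
  have h1 : ε * n ≤ ((a * (n / b) + a + 1 : ℕ) : ℝ) := by
    have h2 : (n : ℝ) ≤ b * ((n / b : ℕ) + 1 : ℝ) := by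
      have h3 : n < b * (n / b + 1) := by
        have := Nat.div_add_mod n b
        have := Nat.mod_lt n hb
        nlinarith
      have h4 : (n : ℝ) < ((b * (n / b + 1) : ℕ) : ℝ) := by exact_mod_cast h3
      push_cast at h4
      exact h4.le
    push_cast
    have hq : (0 : ℝ) ≤ ((n / b : ℕ) : ℝ) + 1 := by positivity
    rcases le_or_gt 0 ε with h0 | h0
    · calc ε * n ≤ ε * (b * ((n / b : ℕ) + 1 : ℝ)) := mul_le_mul_of_nonneg_left h2 h0
        _ = (ε * b) * ((n / b : ℕ) + 1 : ℝ) := by ring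
        _ ≤ a * ((n / b : ℕ) + 1 : ℝ) := mul_le_mul_of_nonneg_right hε hq
        _ ≤ _ := by linarith
    · have h5 : ε * n ≤ 0 := mul_nonpos_of_nonpos_of_nonneg h0.le (Nat.cast_nonneg n)
      have h6 : (0 : ℝ) ≤ (a : ℝ) * ((n / b : ℕ) : ℝ) + a + 1 := by positivity
      linarith
  have h3 : (2 : ℝ) ^ (ε * n) ≤ ((mT a b n : ℕ) : ℝ) := by
    unfold mT
    rw [Nat.cast_pow, Nat.cast_ofNat, ← Real.rpow_natCast]
    exact Real.rpow_le_rpow_of_exponent_le (by norm_num) h1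
  exact Nat.floor_le_of_le h3

theorem evK_of {a b n N : ℕ} {ε : ℝ} (hε : ε * b ≤ a) (hb : 0 < b)
    (hN : 2 ^ (n + mT a b n + 1) ≤ N) {A : Oracle}
    (h : Small A (test a b A) (2 ^ (ε * n)) n) : EvK a b n ⌊(2 : ℝ) ^ (ε * n)⌋₊ N (pre N A) := by
  obtain ⟨C, hC1, hC2⟩ := h
  have hC3 : C.size ≤ ⌊(2 : ℝ) ^ (ε * n)⌋₊ := Nat.le_floor hC1.le
  have hC4 : C.size ≤ mT a b n := hC3.trans (floor_le_mT hε hb)
  have hloc : ∀ y : List Bool, y.length ≤ n + mT a b n → orc N (pre N A) y = A y := by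
    intro y hy
    apply orc_pre
    have h1 := idx_lt y
    have h2 : 2 ^ (y.length + 1) ≤ 2 ^ (n + mT a b n + 1) :=
      Nat.pow_le_pow_right (by norm_num) (by omega)
    omega
  refine ⟨C, hC3, ?_⟩
  intro x hx
  rw [eval_local C (orc N (pre N A)) A (fun y hy => hloc y (by omega)) x, ← hC2 x hx, hloc _ (by
    rw [List.length_append, List.length_replicate, hx])]
  unfold test
  rw [Set.mem_ofPred_eq, hx]

end Pool.Agent.H622R2.Ckt
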