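import Pool.Agent.H622R2.Ckt.Base

/-!
# Task FAM: the possible sets of code positions are few
-/

namespace Pool.Agent.H622R2.Ckt

open Pool.Agent.NPC Pool.Agent.H620R2.Gauge Pool.Agent.H622R2.Exp Finset H568R2

namespace FAM

theorem length_cdw (ℓ e : ℕ) (w x : List Bool) (h : e + 2 * x.length + 2 + w.length ≤ ℓ) :
    (cdw ℓ e w x).length = ℓ := by
  unfold cdw
  simp only [List.length_append, List.length_replicate, List.length_cons]
  omega

open Classical in
/-- the relevant pairs -/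
noncomputable def P (L : ℕ → ℕ → ℕ) (Act : Set (ℕ × ℕ)) (N : ℕ) : Finset (ℕ × ℕ) :=
  (range N ×ˢ range N).filter (fun p => p ∈ Act ∧ 2 ^ L p.1 p.2 ≤ N)

open Classical in
/-- the positions of the codes for a choice of the keys -/
noncomputable def ys (L : ℕ → ℕ → ℕ) (Act : Set (ℕ × ℕ)) (N : ℕ)
    (w : ∀ p ∈ P L Act N, List Bool) : Finset ℕ :=
  (P L Act N).attach.biUnion (fun p => (strsOf p.1.2).image
    (fun x => idx (cdw (L p.1.1 p.1.2) p.1.1 (w p.1 p.2) x)))

theorem card_ys (L : ℕ → ℕ → ℕ) (Act : Set (ℕ × ℕ)) (N : ℕ)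
    (w : ∀ p ∈ P L Act N, List Bool) : (ys L Act N w).card ≤ ∑ p ∈ P L Act N, 2 ^ p.2 := by
  classical
  unfold ys
  refine Finset.card_biUnion_le.trans ?_
  rw [← Finset.sum_attach (P L Act N) (fun p => 2 ^ p.2)]
  exact Finset.sum_le_sum fun p _ => Finset.card_image_le.trans (card_strsOf _)

end FAM

open FAM in
theorem exists_fam (f : ℕ → ℝ) (c : ℕ → ℕ) (L : ℕ → ℕ → ℕ) (Act : Set (ℕ × ℕ))
    (h : Cheap f c L Act) :
    ∃ (Y : ℕ → Finset (Finset ℕ)) (d : ℝ), (∀ N, ∑ y ∈ Y N, (2 : ℝ) ^ y.card ≤ 2 ^ (f N + d)) ∧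
      ∀ W : ℕ → ℕ → List Bool, (∀ e n, (W e n).length = hw c e n + 1) → ∀ N, ∃ y ∈ Y N,
        ∀ i < N, i ∉ y → ∀ e n x, (e, n) ∈ Act → x.length = n →
          str i ≠ cdw (L e n) e (W e n) x := by
  classical
  obtain ⟨h1, d, h2⟩ := h
  refine ⟨fun N => ((P L Act N).pi fun p => strsOf (hw c p.1 p.2 + 1)).image (ys L Act N), d,
    ?_, ?_⟩
  · intro N
    set D : ℕ := ∑ p ∈ P L Act N, 2 ^ p.2 with hD
    set H : ℕ := ∑ p ∈ P L Act N, (hw c p.1 p.2 + 1) with hH
    have hcard : (((P L Act N).pi fun p => strsOf (hw c p.1 p.2 + 1)).image (ys L Act N)).card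
        ≤ 2 ^ H := by
      refine Finset.card_image_le.trans ?_
      rw [Finset.card_pi, hH, ← Finset.prod_pow_eq_pow_sum]
      exact Finset.prod_le_prod' fun p _ => card_strsOf _
    have hterm : ∀ y ∈ ((P L Act N).pi fun p => strsOf (hw c p.1 p.2 + 1)).image (ys L Act N),
        (2 : ℝ) ^ y.card ≤ 2 ^ D := by
      intro y hy
      obtain ⟨w, _, rfl⟩ := Finset.mem_image.1 hy
      exact pow_le_pow_right₀ (by norm_num) (card_ys L Act N w)
    have hexp : ((H + D : ℕ) : ℝ) ≤ f N + d := by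
      have h3 := h2 N (P L Act N) (fun p hp => (Finset.mem_filter.1 hp).2)
      refine le_trans (le_of_eq ?_) h3
      rw [hH, hD]
      push_cast
      rw [← Finset.sum_add_distrib]
      exact Finset.sum_congr rfl fun p _ => by ring
    calc ∑ y ∈ ((P L Act N).pi fun p => strsOf (hw c p.1 p.2 + 1)).image (ys L Act N),
          (2 : ℝ) ^ y.card
        ≤ ∑ y ∈ ((P L Act N).pi fun p => strsOf (hw c p.1 p.2 + 1)).image (ys L Act N),
          (2 : ℝ) ^ D := Finset.sum_le_sum hterm
      _ = ((((P L Act N).pi fun p => strsOf (hw c p.1 p.2 + 1)).image (ys L Act N)).card : ℝ)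
          * 2 ^ D := by rw [Finset.sum_const, nsmul_eq_mul]
      _ ≤ (2 : ℝ) ^ H * 2 ^ D := by
          apply mul_le_mul_of_nonneg_right _ (by positivity)
          exact_mod_cast hcard
      _ = (2 : ℝ) ^ ((H + D : ℕ) : ℝ) := by rw [Real.rpow_natCast, pow_add]
      _ ≤ 2 ^ (f N + d) := Real.rpow_le_rpow_of_exponent_le (by norm_num) hexp
  · intro W hW N
    refine ⟨ys L Act N (fun p _ => W p.1 p.2), ?_, ?_⟩
    · refine Finset.mem_image.2 ⟨fun p _ => W p.1 p.2, ?_, rfl⟩
      rw [Finset.mem_pi]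
      intro p _
      have := mem_strsOf (W p.1 p.2)
      rwa [hW] at this
    · intro i hi hiy e n x hen hx heq
      apply hiy
      have hL := h1 (e, n) hen
      dsimp only at hL
      have hlen : (str i).length = L e n := by
        rw [heq]
        apply length_cdw
        rw [hx, hW]
        omega
      have h2L : 2 ^ L e n ≤ N := by
        rw [← hlen]
        have := le_idx (str i)
        rw [idx_str] at this
        omega
      have hlt : L e n < 2 ^ L e n := Nat.lt_two_pow_self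
      have hP : (e, n) ∈ P L Act N := by
        unfold P
        rw [Finset.mem_filter, Finset.mem_product, Finset.mem_range, Finset.mem_range]
        exact ⟨⟨by dsimp only; omega, by dsimp only; omega⟩, hen, h2L⟩
      unfold ys
      rw [Finset.mem_biUnion]
      refine ⟨⟨(e, n), hP⟩, Finset.mem_attach _ _, ?_⟩
      rw [Finset.mem_image]
      refine ⟨x, ?_, ?_⟩
      · have := mem_strsOf x
        rwa [hx] at this
      · show idx (cdw (L e n) e (W e n) x) = i
        rw [← heq, idx_str]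

end Pool.Agent.H622R2.Ckt
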