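import Pool.Agent.H622R2.Ckt.NIO
import Pool.Agent.H622R2.Ckt.ASA

/-! The oracles with small circuits for the test language, almost always. -/

namespace Pool.Agent.H622R2.Ckt

open Pool.Agent.NPC Pool.Agent.H620R2.Gauge Pool.Agent.H622R2.Exp Finset H568R2 Pool.Agent.H676
open Filter (atTop)

theorem null_ae {a b : ℕ} {ε s : ℝ} (hε : 0 < ε) (hb : 0 < b) (hεa : ε * b ≤ a) (hab : a < b)
    (hs : 0 < s) (hsa : s * a < b) {f : ℕ → ℝ}
    (hf : ∃ᶠ N : ℕ in atTop, f N ≤ (Real.logb 2 N) ^ s) :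
    Null f {A : Oracle | ∀ᶠ n : ℕ in atTop, Small A (test a b A) (2 ^ (ε * n)) n} := by
  refine (null_iUnion (f := f) (fun n₀ : ℕ =>
    {A : Oracle | ∀ n ≥ n₀, Small A (test a b A) (2 ^ (ε * n)) n}) fun n₀ => ?_).mono
    fun A hA => ?_
  · intro δ hδ
    obtain ⟨n, hn, N, hN, hδN⟩ := asy_ae hε hb hεa hab hs hsa hf δ hδ n₀
    obtain ⟨S, hS, hS'⟩ := cover_one hb hεa hN hδN
    exact ⟨S, fun A hA => hS A (hA n hn), hS'⟩
  · obtain ⟨n₀, hn₀⟩ := Filter.eventually_atTop.1 hA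
    exact Set.mem_iUnion.2 ⟨n₀, hn₀⟩

end Pool.Agent.H622R2.Ckt
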