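import Pool.Agent.H622R2.Ckt.Base
import Pool.Agent.H620R2.Gauge2.Null
import Pool.Agent.H622R2.Ckt.EVB
import Pool.Agent.H622R2.Ckt.EVO
import Pool.Agent.H622R2.Ckt.ASI

/-! The oracles with small circuits for the test language, infinitely often. -/

namespace Pool.Agent.H622R2.Ckt

open Pool.Agent.NPC Pool.Agent.H620R2.Gauge Pool.Agent.H622R2.Exp Finset H568R2 Pool.Agent.H676
open Filter (atTop)

theorem cover_one {a b : ℕ} {ε : ℝ} (hb : 0 < b) (hεa : ε * b ≤ a) {f : ℕ → ℝ} {n N : ℕ}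
    (hN : 2 ^ (n + mT a b n + 1) ≤ N) {δ : ℝ}
    (h : (nC n ⌊(2 : ℝ) ^ (ε * n)⌋₊ / 2 ^ 2 ^ n : ℝ) * 2 ^ f N ≤ δ) :
    ∃ S : Set (List Bool), (∀ A ∈ {A : Oracle | Small A (test a b A) (2 ^ (ε * n)) n}, ∃ σ ∈ S,
      Extends A σ) ∧
    ∑' σ : S, ENNReal.ofReal (2 ^ (f σ.1.length - σ.1.length)) ≤ ENNReal.ofReal δ := by
  classical
  refine cover_of_event (EvK a b n ⌊(2 : ℝ) ^ (ε * n)⌋₊ N) _
    (fun A hA => evK_of hεa hb hN hA) f δ ?_
  exact (mul_le_mul_of_nonneg_right (evK_bound a b n _ N (floor_le_mT hεa hb) hN)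
    (by positivity)).trans h

theorem null_io {a b : ℕ} {ε s : ℝ} (hε : 0 < ε) (hb : 0 < b) (hεa : ε * b ≤ a) (hab : a < b)
    (hs : 0 < s) (hsa : s * a < b) {f : ℕ → ℝ}
    (hf : ∀ᶠ N : ℕ in atTop, ∃ N' ≥ N, f N' ≤ (Real.logb 2 N) ^ s) :
    Null f {A : Oracle | ∃ᶠ n : ℕ in atTop, Small A (test a b A) (2 ^ (ε * n)) n} := by
  intro δ hδ
  obtain ⟨n₁, N, hN⟩ := asy_io hε hb hεa hab hs hsa hf δ hδ
  have hcov : ∀ n : ℕ, ∃ S : Set (List Bool), n₁ ≤ n →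
      (∀ A ∈ {A : Oracle | Small A (test a b A) (2 ^ (ε * n)) n}, ∃ σ ∈ S, Extends A σ) ∧
      ∑' σ : S, ENNReal.ofReal (2 ^ (f σ.1.length - σ.1.length)) ≤
        ENNReal.ofReal (δ / 2 ^ (n + 1)) := by
    intro n
    by_cases hn : n₁ ≤ n
    · obtain ⟨S, hS⟩ := cover_one hb hεa (hN n hn).1 (hN n hn).2
      exact ⟨S, fun _ => hS⟩
    · exact ⟨∅, fun h => absurd h hn⟩
  choose S hS using hcov
  refine ⟨⋃ k : ℕ, S (n₁ + k), ?_, ?_⟩
  · intro A hA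
    obtain ⟨n, hn, hE⟩ := Filter.frequently_atTop.1 hA n₁
    obtain ⟨σ, hσ, hE'⟩ := (hS n hn).1 A hE
    refine ⟨σ, Set.mem_iUnion.2 ⟨n - n₁, ?_⟩, hE'⟩
    rw [Nat.add_sub_cancel' hn]
    exact hσ
  · refine (ENNReal.tsum_iUnion_le_tsum (fun σ : List Bool =>
      ENNReal.ofReal (2 ^ (f σ.length - σ.length))) (fun k => S (n₁ + k))).trans ?_
    refine (ENNReal.tsum_le_tsum fun k => (hS (n₁ + k) (Nat.le_add_right _ _)).2).trans ?_
    have hterm : ∀ k : ℕ, δ / 2 ^ (n₁ + k + 1) = (δ / 2 ^ (n₁ + 1)) * (1 / 2) ^ k := by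
      intro k
      rw [show n₁ + k + 1 = (n₁ + 1) + k by ring, pow_add, one_div, inv_pow]
      field_simp
    have hsum : Summable (fun k : ℕ => δ / 2 ^ (n₁ + k + 1)) := by
      simp only [hterm]
      exact summable_geometric_two.mul_left _
    rw [← ENNReal.ofReal_tsum_of_nonneg (fun k => by positivity) hsum]
    apply ENNReal.ofReal_le_ofReal
    simp only [hterm]
    rw [tsum_mul_left, tsum_geometric_two]
    have h1 : (1 : ℝ) ≤ 2 ^ n₁ := one_le_pow₀ (by norm_num)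
    have h2 : δ / 2 ^ (n₁ + 1) * 2 = δ / 2 ^ n₁ := by
      rw [pow_succ]; field_simp
    rw [h2]
    exact div_le_self hδ.le h1

end Pool.Agent.H622R2.Ckt
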