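import Pool.Agent.H622R2.Ckt.Base
import Pool.Agent.H620R2.Gauge.M

/-!
# Task NNF: mass distribution with a family of changed positions (helper584)
-/

namespace Pool.Agent.H622R2.Ckt

open Pool.Agent.NPC Pool.Agent.H620R2.Gauge Finset MeasureTheory

namespace NNF

theorem ran_le (σ : List Bool) (y : Finset ℕ) :
    ranO {B : Oracle | ∀ (i : ℕ) (h : i < σ.length), i ∉ y → B (str i) = σ[i]} ≤
      ENNReal.ofReal (2 ^ ((y.card : ℝ) - (σ.length : ℝ))) := by
  classical
  have hΦ : ∀ B : Oracle, ∀ z ∉ {z : List Bool | ∃ i ∈ y, str i = z},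
      (fun (B : Oracle) (z : List Bool) => if z ∈ {z : List Bool | ∃ i ∈ y, str i = z} then
        σ.getD (idx z) false else B z) B z = B z := by
    intro B z hz
    simp only [if_neg hz]
  refine (measure_mono ?_).trans ((ranO_extends (fun B z =>
    if z ∈ {z : List Bool | ∃ i ∈ y, str i = z} then σ.getD (idx z) false else B z)
    {z : List Bool | ∃ i ∈ y, str i = z} hΦ σ).trans ?_)
  · intro B hB i hi
    by_cases h : i ∈ y
    · have h1 : str i ∈ {z : List Bool | ∃ i ∈ y, str i = z} := ⟨i, h, rfl⟩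
      simp only [if_pos h1]
      rw [idx_str, List.getD_eq_getElem _ _ hi]
    · have h1 : str i ∉ {z : List Bool | ∃ i ∈ y, str i = z} := by
        rintro ⟨j, hj, e⟩
        rw [str_injective e] at hj
        exact h hj
      simp only [if_neg h1]
      exact hB i hi h
  · apply ENNReal.ofReal_le_ofReal
    apply Real.rpow_le_rpow_of_exponent_le (by norm_num)
    refine sub_le_sub_right ?_ _
    rw [Nat.cast_le]
    apply Finset.card_le_card
    intro i hi
    simp only [Finset.mem_filter, Set.mem_setOf_eq] at hi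
    obtain ⟨j, hj, e⟩ := hi.2
    rwa [str_injective e] at hj

end NNF

theorem not_null_fam (f : ℕ → ℝ) (O : Set Oracle) (Y : ℕ → Finset (Finset ℕ)) (d : ℝ)
    (hY : ∀ N, ∑ y ∈ Y N, (2 : ℝ) ^ y.card ≤ 2 ^ (f N + d))
    (h : ∀ B : Oracle, ∃ A ∈ O, ∀ N, ∃ y ∈ Y N, ∀ i < N, i ∉ y → A (str i) = B (str i)) :
    ¬ Null f O := by
  intro hnull
  have hc : (0 : ℝ) < 2 ^ d := Real.rpow_pos_of_pos (by norm_num) _
  set δ : ℝ := 1 / 2 / 2 ^ d with hδ
  have hδpos : 0 < δ := by positivity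
  obtain ⟨S, hS, hsum⟩ := hnull δ hδpos
  have h1 : (Set.univ : Set Oracle) ⊆ ⋃ σ : S, ⋃ y ∈ Y σ.1.length,
      {B : Oracle | ∀ (i : ℕ) (h : i < σ.1.length), i ∉ y → B (str i) = σ.1[i]} := by
    intro B _
    obtain ⟨A, hA, hAB⟩ := h B
    obtain ⟨σ, hσ, hE⟩ := hS A hA
    obtain ⟨y, hy, hyB⟩ := hAB σ.length
    rw [Set.mem_iUnion]
    refine ⟨⟨σ, hσ⟩, ?_⟩
    rw [Set.mem_iUnion₂]
    refine ⟨y, hy, fun i hi hiy => ?_⟩
    rw [← hyB i hi hiy]
    exact hE i hi
  have h2 : (1 : ENNReal) ≤ ENNReal.ofReal (2 ^ d * δ) := by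
    calc (1 : ENNReal) = ranO Set.univ := measure_univ.symm
      _ ≤ ranO (⋃ σ : S, ⋃ y ∈ Y σ.1.length,
          {B : Oracle | ∀ (i : ℕ) (h : i < σ.1.length), i ∉ y → B (str i) = σ.1[i]}) :=
        measure_mono h1
      _ ≤ ∑' σ : S, ranO (⋃ y ∈ Y σ.1.length,
          {B : Oracle | ∀ (i : ℕ) (h : i < σ.1.length), i ∉ y → B (str i) = σ.1[i]}) :=
        measure_iUnion_le _
      _ ≤ ∑' σ : S, ENNReal.ofReal (2 ^ d) *
          ENNReal.ofReal (2 ^ (f σ.1.length - σ.1.length)) := by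
        refine ENNReal.tsum_le_tsum (fun σ => ?_)
        refine (measure_biUnion_finset_le _ _).trans ?_
        refine (Finset.sum_le_sum fun y _ => NNF.ran_le σ.1 y).trans ?_
        rw [← ENNReal.ofReal_sum_of_nonneg (fun y _ => by positivity),
          ← ENNReal.ofReal_mul hc.le]
        apply ENNReal.ofReal_le_ofReal
        have h3 : ∀ y ∈ Y σ.1.length, (2 : ℝ) ^ ((y.card : ℝ) - (σ.1.length : ℝ)) =
            2 ^ y.card * 2 ^ (-(σ.1.length : ℝ)) := by
          intro y _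
          rw [sub_eq_add_neg, Real.rpow_add (by norm_num), Real.rpow_natCast]
        rw [Finset.sum_congr rfl h3, ← Finset.sum_mul]
        have h4 := mul_le_mul_of_nonneg_right (hY σ.1.length)
          (by positivity : (0 : ℝ) ≤ 2 ^ (-(σ.1.length : ℝ)))
        refine h4.trans (le_of_eq ?_)
        rw [← Real.rpow_add (by norm_num), ← Real.rpow_add (by norm_num)]
        congr 1
        ring
      _ = ENNReal.ofReal (2 ^ d) * ∑' σ : S,
          ENNReal.ofReal (2 ^ (f σ.1.length - σ.1.length)) := ENNReal.tsum_mul_left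
      _ ≤ ENNReal.ofReal (2 ^ d) * ENNReal.ofReal δ := by gcongr
      _ = ENNReal.ofReal (2 ^ d * δ) := (ENNReal.ofReal_mul hc.le).symm
  have h3 : 2 ^ d * δ = 1 / 2 := by
    rw [hδ]
    field_simp
  rw [h3] at h2
  have h4 := ENNReal.toReal_mono ENNReal.ofReal_ne_top h2
  rw [ENNReal.toReal_ofReal (by positivity), ENNReal.toReal_one] at h4
  norm_num at h4

end Pool.Agent.H622R2.Ckt
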