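import Pool.Agent.H622R2.Ckt.Base
import Pool.Agent.H622R2.Exp.A6

/-!
# The test language is decidable in linear exponential time relative to the oracle
-/

namespace Pool.Agent.H622R2.Ckt

open Pool.Agent.NPC Pool.Agent.H620R2.Gauge Pool.Agent.H622R2.Exp Finset H568R2

namespace TST

/-- the next action -/
noncomputable def act (a b : ℕ) (p : List Bool × List Bool) : List Bool :=
  if p.2.length < mT a b p.1.length then [false] else
    if p.2.length = mT a b p.1.length then
      false :: (p.1 ++ p.2.map (fun _ => false))
    else [true, p.2.reverse.head?.getD false]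

theorem poly_act (a b : ℕ) : NPC.Poly (fun y => act a b (unpair y)) := by
  have hx : NPC.Poly (fun y => (unpair y).1) := NPC.Poly.fst poly_unpair
  have ha : NPC.Poly (fun y => (unpair y).2) := NPC.Poly.snd poly_unpair
  have hl : UPoly (fun y : List Bool => (unpair y).1.length) := UPoly.length hx
  have hd : UPoly (fun y : List Bool => (unpair y).1.length / b) :=
    UPoly.of_le (NPC.Poly.div hl.toPoly (NPC.Poly.const b)) hl (fun _ => Nat.div_le_self _ _)
  have hR : NPC.Poly (fun y : List Bool => mT a b (unpair y).1.length) :=
    A6.poly_two_pow (((UPoly.const a).mul hd).add (UPoly.const a) |>.add (UPoly.const 1))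
  have hm : NPC.Poly (fun y : List Bool => (unpair y).2.map (fun _ => false)) :=
    NPC.Poly.map (F := fun _ _ => false) ha (NPC.Poly.const false)
  unfold act
  refine NPC.Poly.ite (NPC.Poly.decide_lt (NPC.Poly.length ha) hR) (NPC.Poly.const _)
    (NPC.Poly.ite (NPC.Poly.decide_eq (NPC.Poly.length ha) hR) ?_ ?_)
  · exact NPC.Poly.cons (NPC.Poly.const _) (NPC.Poly.append hx hm)
  · exact NPC.Poly.cons (NPC.Poly.const _) (NPC.Poly.cons
      (NPC.Poly.head?_getD (NPC.Poly.reverse ha) false) (NPC.Poly.const _))

/-- the algorithm -/
noncomputable def alg (a b : ℕ) : Alg where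
  D := fun y => act a b (unpair y)
  poly := polyTime_of_poly_list (poly_act a b)
  p := 0

theorem alg_D (a b : ℕ) (x w : List Bool) :
    (alg a b).D (pairBits x w) = act a b (x, w) := by
  change act a b (unpair (pairBits x w)) = _
  rw [unpair_pairBits]

theorem run_alg (a b : ℕ) (A : Oracle) (x : List Bool) : ∀ (n : ℕ)
    (w : List Bool), n + w.length = mT a b x.length →
    (alg a b).run A x (n + 2) w = some [A (x ++ List.replicate (mT a b x.length) false)] := by
  intro n
  induction n with
  | zero =>
    intro w hw
    rw [Nat.zero_add] at hw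
    have h1 : (alg a b).D (pairBits x w) =
        false :: (x ++ List.replicate (mT a b x.length) false) := by
      rw [alg_D]
      unfold act
      rw [if_neg (by simp only; omega), if_pos (by simp only; omega)]
      simp only
      rw [List.map_const', hw]
    have h2 : (alg a b).D (pairBits x (w ++ [A (x ++ List.replicate (mT a b x.length) false)])) =
        true :: [A (x ++ List.replicate (mT a b x.length) false)] := by
      rw [alg_D]
      unfold act
      rw [if_neg (by simp only [List.length_append, List.length_singleton]; omega),
        if_neg (by simp only [List.length_append, List.length_singleton]; omega)]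
      simp
    simp only [Nat.zero_add, Alg.run, h1, h2]
  | succ n ih =>
    intro w hw
    have h1 : (alg a b).D (pairBits x w) = false :: [] := by
      rw [alg_D]
      unfold act
      rw [if_pos (by simp only; omega)]
    have h2 := ih (w ++ [A []]) (by rw [List.length_append, List.length_singleton]; omega)
    have h3 : n + 1 + 2 = (n + 2) + 1 := by ring
    rw [h3, Alg.run]
    simp only [h1]
    exact h2

end TST

theorem test_inTime (a b : ℕ) (A : Oracle) : InTime Lin A (test a b A) := by
  refine ⟨TST.alg a b, Polynomial.C (a + 3) * (Polynomial.X + 1), ⟨a + 3, rfl⟩,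
    fun x => ⟨[A (x ++ List.replicate (mT a b x.length) false)], ?_, ?_⟩⟩
  · refine Alg.run_mono _ A x _ (mT a b x.length + 2) _ [] ?_
      (TST.run_alg a b A x _ [] (by simp))
    have h1 : (Polynomial.C (a + 3) * (Polynomial.X + 1) : Polynomial ℕ).eval x.length =
        (a + 3) * (x.length + 1) := by simp
    have h2 : x.length / b ≤ x.length := Nat.div_le_self _ _
    have h3 : a * (x.length / b) ≤ a * x.length := Nat.mul_le_mul_left a h2
    have h4 : a * (x.length / b) + a + 1 + 1 ≤ (a + 3) * (x.length + 1) := by nlinarith
    have h5 : 2 ^ (a * (x.length / b) + a + 1 + 1) ≤ 2 ^ ((a + 3) * (x.length + 1)) :=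
      Nat.pow_le_pow_right (by norm_num) h4
    have h6 : 2 ≤ mT a b x.length := by
      unfold mT
      calc 2 = 2 ^ 1 := by norm_num
        _ ≤ _ := Nat.pow_le_pow_right (by norm_num) (by omega)
    rw [h1]
    unfold mT at h6 ⊢
    rw [pow_succ 2 (a * (x.length / b) + a + 1)] at h5
    omega
  · unfold test
    simp

end Pool.Agent.H622R2.Ckt
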