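import Pool.Agent.H622R2.Ckt.STG
import Pool.Agent.H622R2.Ckt.NNF
import Pool.Agent.H622R2.Ckt.FAM
import Pool.Agent.H622R2.Ckt.CIO
import Pool.Agent.H622R2.Ckt.CAE
import Pool.Agent.H622R2.Ckt.CIR
import Pool.Agent.H622R2.Ckt.NIO
import Pool.Agent.H622R2.Ckt.NAE
import Pool.Agent.H622R2.Ckt.TST
import Pool.Agent.H620R2.GaugeX.X1
import Pool.Agent.H620R2.Gauge.C

/-!
# The size of the set of the oracles with small circuits for `E`: assembly
-/

namespace Pool.Agent.H622R2.Ckt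

open Pool.Agent.NPC Pool.Agent.H620R2.Gauge Pool.Agent.H622R2.Exp
open Filter (atTop)

theorem Small.mono {A : Oracle} {L : Set (List Bool)} {s t : ℝ} {n : ℕ} (h : Small A L s n)
    (hst : s ≤ t) : Small A L t n := by
  obtain ⟨C, h1, h2⟩ := h
  exact ⟨C, h1.trans_le hst, h2⟩

theorem exists_enum : ∃ g : ℕ → (Alg × ℕ) × ℕ, Function.Surjective g := by
  have h1 := CC.poly_countable
  have hne : Nonempty Alg := by
    obtain ⟨M, _⟩ := IsFP.of_poly (A := fun _ => false) (F := fun x => x) Poly.id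
    exact ⟨M⟩
  have h2 : Countable Alg := inferInstance
  exact exists_surjective_nat _

/-- what the construction gives -/
theorem exists_oracle (g : ℕ → (Alg × ℕ) × ℕ) (ε : ℕ → ℝ) (f : ℕ → ℝ) (Act : Set (ℕ × ℕ))
    (hC : Cheap f (fun e => (g e).1.2) (Lf fun e => ε (g e).2) Act) (O : Set Oracle)
    (hO : ∀ A : Oracle, (∀ e n, (e, n) ∈ Act → ∀ L : Set (List Bool),
      (∀ x : List Bool, ∃ z, (g e).1.1.run A x (2 ^ ((g e).1.2 * (x.length + 1))) [] = some z ∧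
        (x ∈ L ↔ z = [true])) → Small A L (2 ^ (ε (g e).2 * n)) n) → A ∈ O) : ¬ Null f O := by
  obtain ⟨Y, d, hY, hfam⟩ := exists_fam f _ _ Act hC
  refine not_null_fam f O Y d hY fun B => ?_
  obtain ⟨A, W, hW, hA1, hA2⟩ := exists_stageP (fun e => (g e).1.2) (Lf fun e => ε (g e).2) Act
    (fun e x A => (g e).1.1.run A x (2 ^ ((g e).1.2 * (x.length + 1))) [] = some [true]) (by
      intro e x A
      obtain ⟨U, hU1, hU2⟩ := Pool.Agent.H620R2.Gauge.run_local (g e).1.1 A x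
        (2 ^ ((g e).1.2 * (x.length + 1))) []
      refine ⟨U, hU1, fun A' hA' => ?_⟩
      rw [hU2 A' hA']) B
  refine ⟨A, hO A ?_, fun N => ?_⟩
  · intro e n hen L hL
    refine small_of_code (ε := fun e => ε (g e).2) (e := e) (w := W e n) ?_ ?_
    · have h1 := hC.1 _ hen
      rw [hW]
      dsimp only at h1 ⊢
      omega
    · intro x hx
      rw [hA2 e n x hen hx]
      obtain ⟨z, hz, hxL⟩ := hL x
      rw [hz, hxL, Option.some.injEq]
  · obtain ⟨y, hy, h⟩ := hfam W hW N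
    refine ⟨y, hy, fun i hi hiy => hA1 _ fun e n x hen hx => h i hi hiy e n x hen hx⟩

theorem not_null_io (ε s : ℕ → ℝ) (hε : ∀ k, 0 < ε k ∧ ε k < 1) (hs : ∀ k, 1 / ε k < s k)
    {f : ℕ → ℝ} (hf : ∀ k, ¬ ∀ᶠ N : ℕ in atTop, ∃ N' ≥ N, f N' ≤ (Real.logb 2 N) ^ s k) :
    ¬ Null f {A : Oracle | ∀ L, InTime Lin A L → ∀ k,
      ∃ᶠ n : ℕ in atTop, Small A L (2 ^ (ε k * n)) n} := by
  obtain ⟨g, hg⟩ := exists_enum
  obtain ⟨Act, hAct, hC⟩ := choose_io (fun e => (g e).1.2) (fun e => ε (g e).2)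
    (fun e => s (g e).2) (fun e => hε _) (fun e => hs _) f (fun e => hf _)
  refine exists_oracle g ε f Act hC _ ?_
  rintro A hA L ⟨M, q, ⟨c, rfl⟩, hL⟩ k
  obtain ⟨e, he⟩ := hg ((M, c), k)
  refine (hAct e).mono fun n hn => ?_
  have h := hA e n hn L
  rw [he] at h
  refine h fun x => ?_
  obtain ⟨z, hz, hx⟩ := hL x
  refine ⟨z, ?_, hx⟩
  simpa using hz

theorem not_null_ae (ε s : ℕ → ℝ) (hε : ∀ k, 0 < ε k ∧ ε k < 1) (hs : ∀ k, 1 / ε k < s k)
    {f : ℕ → ℝ} (hf : ∀ k, ¬ ∃ᶠ N : ℕ in atTop, f N ≤ (Real.logb 2 N) ^ s k) :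
    ¬ Null f {A : Oracle | ∀ L, InTime Lin A L → ∀ k,
      ∀ᶠ n : ℕ in atTop, Small A L (2 ^ (ε k * n)) n} := by
  obtain ⟨g, hg⟩ := exists_enum
  obtain ⟨Act, hAct, hC⟩ := choose_ae (fun e => (g e).1.2) (fun e => ε (g e).2)
    (fun e => s (g e).2) (fun e => hε _) (fun e => hs _) f (fun e => hf _)
  refine exists_oracle g ε f Act hC _ ?_
  rintro A hA L ⟨M, q, ⟨c, rfl⟩, hL⟩ k
  obtain ⟨e, he⟩ := hg ((M, c), k)
  refine (hAct e).mono fun n hn => ?_
  have h := hA e n hn L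
  rw [he] at h
  refine h fun x => ?_
  obtain ⟨z, hz, hx⟩ := hL x
  refine ⟨z, ?_, hx⟩
  simpa using hz

/-- a fraction between `ε` and the two bounds -/
theorem exists_frac {ε s : ℝ} (h0 : 0 < ε) (h1 : ε < 1) (hs0 : 0 < s) (hs : s < 1 / ε) :
    ∃ a b : ℕ, 0 < b ∧ ε * b ≤ a ∧ a < b ∧ s * a < b := by
  have h2 : ε < min 1 (1 / s) := by
    refine lt_min h1 ?_
    rw [lt_div_iff₀ hs0]
    rw [lt_div_iff₀ h0] at hs
    linarith
  obtain ⟨q, hq1, hq2⟩ := exists_rat_btwn h2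
  have hq0 : (0 : ℚ) < q := by
    have : (0 : ℝ) < q := h0.trans hq1
    exact_mod_cast this
  have hb : (0 : ℝ) < q.den := by exact_mod_cast q.pos
  have hnum : ((q.num.toNat : ℕ) : ℝ) = q.num := by
    have : ((q.num.toNat : ℕ) : ℤ) = q.num := Int.toNat_of_nonneg (Rat.num_nonneg.2 hq0.le)
    exact_mod_cast this
  have hqr : (q : ℝ) = q.num / q.den := by
    rw [Rat.cast_def]
  have hqa : (q : ℝ) * q.den = q.num := by
    rw [hqr]
    field_simp
  refine ⟨q.num.toNat, q.den, q.pos, ?_, ?_, ?_⟩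
  · rw [hnum, ← hqa]
    exact mul_le_mul_of_nonneg_right hq1.le hb.le
  · have : ((q.num.toNat : ℕ) : ℝ) < q.den := by
      rw [hnum, ← hqa]
      calc (q : ℝ) * q.den < 1 * q.den :=
            mul_lt_mul_of_pos_right (hq2.trans_le (min_le_left _ _)) hb
        _ = q.den := one_mul _
    exact_mod_cast this
  · rw [hnum, ← hqa]
    have h3 : (q : ℝ) < 1 / s := hq2.trans_le (min_le_right _ _)
    rw [lt_div_iff₀ hs0] at h3
    nlinarith

theorem log_mono {s s' : ℝ} (h : s ≤ s') :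
    ∀ᶠ N : ℕ in atTop, (Real.logb 2 N) ^ s ≤ (Real.logb 2 N) ^ s' := by
  have h1 : Filter.Tendsto (fun N : ℕ => Real.logb 2 N) atTop atTop :=
    (Real.tendsto_logb_atTop (by norm_num)).comp tendsto_natCast_atTop_atTop
  filter_upwards [h1.eventually_ge_atTop 1] with N hN
  exact Real.rpow_le_rpow_of_exponent_le hN h

theorem up_io {s s' : ℝ} (h : s ≤ s') {f : ℕ → ℝ}
    (hf : ∀ᶠ N : ℕ in atTop, ∃ N' ≥ N, f N' ≤ (Real.logb 2 N) ^ s) :
    ∀ᶠ N : ℕ in atTop, ∃ N' ≥ N, f N' ≤ (Real.logb 2 N) ^ s' := by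
  filter_upwards [hf, log_mono h] with N ⟨N', h1, h2⟩ h3
  exact ⟨N', h1, h2.trans h3⟩

theorem up_ae {s s' : ℝ} (h : s ≤ s') {f : ℕ → ℝ}
    (hf : ∃ᶠ N : ℕ in atTop, f N ≤ (Real.logb 2 N) ^ s) :
    ∃ᶠ N : ℕ in atTop, f N ≤ (Real.logb 2 N) ^ s' :=
  (hf.and_eventually (log_mono h)).mono fun _ h => h.1.trans h.2

theorem null_io' {ε s : ℝ} (h0 : 0 < ε) (h1 : ε < 1) (hs : s < 1 / ε) {f : ℕ → ℝ}
    (hf : ∀ᶠ N : ℕ in atTop, ∃ N' ≥ N, f N' ≤ (Real.logb 2 N) ^ s) :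
    Null f {A : Oracle | ∀ L, InTime Lin A L → ∃ᶠ n : ℕ in atTop, Small A L (2 ^ (ε * n)) n} := by
  have h2 : (0 : ℝ) < 1 / ε := by positivity
  obtain ⟨a, b, hb, h3, h4, h5⟩ := exists_frac h0 h1 (s := max s (1 / ε / 2))
    (lt_max_of_lt_right (by linarith)) (max_lt hs (by linarith))
  exact (null_io h0 hb h3 h4 (lt_max_of_lt_right (by linarith)) h5
    (up_io (le_max_left _ _) hf)).mono fun A hA => hA _ (test_inTime a b A)

theorem null_ae' {ε s : ℝ} (h0 : 0 < ε) (h1 : ε < 1) (hs : s < 1 / ε) {f : ℕ → ℝ}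
    (hf : ∃ᶠ N : ℕ in atTop, f N ≤ (Real.logb 2 N) ^ s) :
    Null f {A : Oracle | ∀ L, InTime Lin A L → ∀ᶠ n : ℕ in atTop, Small A L (2 ^ (ε * n)) n} := by
  have h2 : (0 : ℝ) < 1 / ε := by positivity
  obtain ⟨a, b, hb, h3, h4, h5⟩ := exists_frac h0 h1 (s := max s (1 / ε / 2))
    (lt_max_of_lt_right (by linarith)) (max_lt hs (by linarith))
  exact (null_ae h0 hb h3 h4 (lt_max_of_lt_right (by linarith)) h5
    (up_ae (le_max_left _ _) hf)).mono fun A hA => hA _ (test_inTime a b A)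

theorem resCkt :
    (∀ (ε s : ℝ) (f : ℕ → ℝ), 0 < ε → ε < 1 →
      (s < 1 / ε → (∀ᶠ N : ℕ in atTop, ∃ N' ≥ N, f N' ≤ (Real.logb 2 N) ^ s) →
        Null f {A : Oracle | ∀ L, InTime Lin A L →
          ∃ᶠ n : ℕ in atTop, Small A L (2 ^ (ε * n)) n}) ∧
      (1 / ε < s → (¬ ∀ᶠ N : ℕ in atTop, ∃ N' ≥ N, f N' ≤ (Real.logb 2 N) ^ s) →
        ¬ Null f {A : Oracle | ∀ L, InTime Lin A L →
          ∃ᶠ n : ℕ in atTop, Small A L (2 ^ (ε * n)) n}) ∧
      (s < 1 / ε → (∃ᶠ N : ℕ in atTop, f N ≤ (Real.logb 2 N) ^ s) →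
        Null f {A : Oracle | ∀ L, InTime Lin A L →
          ∀ᶠ n : ℕ in atTop, Small A L (2 ^ (ε * n)) n}) ∧
      (1 / ε < s → (¬ ∃ᶠ N : ℕ in atTop, f N ≤ (Real.logb 2 N) ^ s) →
        ¬ Null f {A : Oracle | ∀ L, InTime Lin A L →
          ∀ᶠ n : ℕ in atTop, Small A L (2 ^ (ε * n)) n})) ∧
    (∀ f : ℕ → ℝ,
      (Null f {A : Oracle | ∀ L, InTime Lin A L → ∀ ε : ℝ, 0 < ε →
          ∃ᶠ n : ℕ in atTop, Small A L (2 ^ (ε * n)) n} ↔
        ∃ s : ℝ, ∀ᶠ N : ℕ in atTop, ∃ N' ≥ N, f N' ≤ (Real.logb 2 N) ^ s) ∧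
      (Null f {A : Oracle | ∀ L, InTime Lin A L → ∀ ε : ℝ, 0 < ε →
          ∀ᶠ n : ℕ in atTop, Small A L (2 ^ (ε * n)) n} ↔
        ∃ s : ℝ, ∃ᶠ N : ℕ in atTop, f N ≤ (Real.logb 2 N) ^ s)) := by
  refine ⟨fun ε s f h0 h1 => ⟨fun hs hf => null_io' h0 h1 hs hf, fun hs hf hn => ?_,
    fun hs hf => null_ae' h0 h1 hs hf, fun hs hf hn => ?_⟩, fun f => ⟨⟨fun hn => ?_, ?_⟩,
    ⟨fun hn => ?_, ?_⟩⟩⟩
  · exact not_null_io (fun _ => ε) (fun _ => s) (fun _ => ⟨h0, h1⟩) (fun _ => hs) (fun _ => hf)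
      (hn.mono fun A hA L hL => hA L hL 0)
  · exact not_null_ae (fun _ => ε) (fun _ => s) (fun _ => ⟨h0, h1⟩) (fun _ => hs) (fun _ => hf)
      (hn.mono fun A hA L hL => hA L hL 0)
  · by_contra hcon
    refine not_null_io (fun k => 1 / (k + 2 : ℝ)) (fun k => k + 3) (fun k => ⟨by positivity, ?_⟩)
      (fun k => by rw [one_div_one_div]; linarith) (fun k => ?_) (hn.mono fun A hA L hL ε hε => ?_)
    · rw [div_lt_one (by positivity)]
      have : (0 : ℝ) ≤ k := Nat.cast_nonneg k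
      linarith
    · exact fun h => hcon ⟨_, h⟩
    · obtain ⟨k, hk⟩ := exists_nat_gt (1 / ε)
      refine (hA L hL k).mono fun n h => h.mono ?_
      apply Real.rpow_le_rpow_of_exponent_le (by norm_num)
      apply mul_le_mul_of_nonneg_right _ (Nat.cast_nonneg n)
      rw [div_le_iff₀ (by positivity)]
      rw [div_lt_iff₀ hε] at hk
      nlinarith
  · rintro ⟨s, hs⟩
    set ε : ℝ := 1 / (max s 1 + 1) with hε
    have h1 : (0 : ℝ) < max s 1 + 1 := by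
      have := le_max_right s 1
      linarith
    have h2 : ε < 1 := by
      rw [hε, div_lt_one h1]
      have := le_max_right s 1
      linarith
    refine (null_io' (ε := ε) (by positivity) h2 ?_ hs).mono fun A hA L hL => hA L hL ε (by positivity)
    rw [hε, one_div_one_div]
    have := le_max_left s 1
    linarith
  · by_contra hcon
    refine not_null_ae (fun k => 1 / (k + 2 : ℝ)) (fun k => k + 3) (fun k => ⟨by positivity, ?_⟩)
      (fun k => by rw [one_div_one_div]; linarith) (fun k => ?_) (hn.mono fun A hA L hL ε hε => ?_)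
    · rw [div_lt_one (by positivity)]
      have : (0 : ℝ) ≤ k := Nat.cast_nonneg k
      linarith
    · exact fun h => hcon ⟨_, h⟩
    · obtain ⟨k, hk⟩ := exists_nat_gt (1 / ε)
      refine (hA L hL k).mono fun n h => h.mono ?_
      apply Real.rpow_le_rpow_of_exponent_le (by norm_num)
      apply mul_le_mul_of_nonneg_right _ (Nat.cast_nonneg n)
      rw [div_le_iff₀ (by positivity)]
      rw [div_lt_iff₀ hε] at hk
      nlinarith
  · rintro ⟨s, hs⟩
    set ε : ℝ := 1 / (max s 1 + 1) with hε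
    have h1 : (0 : ℝ) < max s 1 + 1 := by
      have := le_max_right s 1
      linarith
    have h2 : ε < 1 := by
      rw [hε, div_lt_one h1]
      have := le_max_right s 1
      linarith
    refine (null_ae' (ε := ε) (by positivity) h2 ?_ hs).mono fun A hA L hL => hA L hL ε (by positivity)
    rw [hε, one_div_one_div]
    have := le_max_left s 1
    linarith

end Pool.Agent.H622R2.Ckt
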