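import Pool.Agent.H622R2.Ckt.Base
import Pool.Agent.H622R2.Ckt.KEY

/-!
# Task STG: the construction of the oracle (helper584)
-/

namespace Pool.Agent.H622R2.Ckt

open Pool.Agent.NPC Pool.Agent.H620R2.Gauge Pool.Agent.H622R2.Exp Finset

namespace STG

theorem lead_inj : ∀ {a b : ℕ} {l l' : List Bool},
    List.replicate a true ++ false :: l = List.replicate b true ++ false :: l' → a = b ∧ l = l'
  | 0, 0, l, l', h => ⟨rfl, by simpa using h⟩
  | 0, b + 1, l, l', h => by simp [List.replicate_succ] at h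
  | a + 1, 0, l, l', h => by simp [List.replicate_succ] at h
  | a + 1, b + 1, l, l', h => by
    rw [List.replicate_succ, List.replicate_succ, List.cons_append, List.cons_append] at h
    obtain ⟨h1, h2⟩ := lead_inj (List.cons.inj h).2
    exact ⟨by omega, h2⟩

theorem cdw_eq (ℓ e : ℕ) (w x : List Bool) : cdw ℓ e w x =
    List.replicate e true ++ false :: (List.replicate x.length true ++ false :: (w ++ (x ++
      List.replicate (ℓ - (e + 2 * x.length + 2 + w.length)) false))) := by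
  simp [cdw]

theorem cdw_inj {c : ℕ → ℕ} {ℓ ℓ' e e' n n' : ℕ} {w w' x x' : List Bool} (hx : x.length = n)
    (hx' : x'.length = n') (hw1 : w.length = hw c e n + 1) (hw2 : w'.length = hw c e' n' + 1)
    (h : cdw ℓ e w x = cdw ℓ' e' w' x') : e = e' ∧ n = n' ∧ w = w' ∧ x = x' := by
  rw [cdw_eq, cdw_eq] at h
  obtain ⟨h1, h2⟩ := lead_inj h
  obtain ⟨h3, h4⟩ := lead_inj h2
  subst h1
  have hn : n = n' := by omega
  subst hn
  have h5 := List.append_inj h4 (by omega)
  have h6 := List.append_inj h5.2 (by omega)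
  exact ⟨rfl, rfl, h5.1, h6.1⟩

/-- `y` is a code string of the pair `t` -/
def IsC (c : ℕ → ℕ) (L : ℕ → ℕ → ℕ) (t : ℕ × ℕ) (y : List Bool) : Prop :=
  ∃ w x : List Bool, w.length = hw c t.1 t.2 + 1 ∧ x.length = t.2 ∧ y = cdw (L t.1 t.2) t.1 w x

theorem IsC.uniq {c : ℕ → ℕ} {L : ℕ → ℕ → ℕ} {t t' : ℕ × ℕ} {y : List Bool}
    (h : IsC c L t y) (h' : IsC c L t' y) : t = t' := by
  obtain ⟨w, x, h1, h2, e⟩ := h
  obtain ⟨w', x', h1', h2', e'⟩ := h'
  obtain ⟨a1, a2, _, _⟩ := cdw_inj h2 h2' h1 h1' (e.symm.trans e')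
  exact Prod.ext a1 a2

/-- the strings which are not changed any more -/
def Cs (c : ℕ → ℕ) (L : ℕ → ℕ → ℕ) (key : ℕ × ℕ → ℕ) (k : ℕ) (F : Finset (List Bool)) :
    Set (List Bool) :=
  {y | (∀ t, ¬ IsC c L t y) ∨ y ∈ F ∨ ∃ t, IsC c L t y ∧ key t < k}

/-- specification of one step of the construction, for the pair `t` -/
def SpecT (c : ℕ → ℕ) (L : ℕ → ℕ → ℕ) (Act : Set (ℕ × ℕ)) (Q : ℕ → List Bool → Oracle → Prop)
    (t : ℕ × ℕ) (s s' : Oracle × Finset (List Bool)) (w : List Bool) : Prop :=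
  w.length = hw c t.1 t.2 + 1 ∧ s'.2.card ≤ s.2.card + 2 ^ (c t.1 * (t.2 + 1) + t.2) ∧
  (∀ x : List Bool, x.length = t.2 → ∀ A' : Oracle, (∀ u ∈ s'.2, A' u = s.1 u) →
    (Q t.1 x A' ↔ Q t.1 x s.1)) ∧
  (s'.2.card ≤ 2 ^ hw c t.1 t.2 → ∀ x : List Bool, x.length = t.2 →
    cdw (L t.1 t.2) t.1 w x ∉ s'.2) ∧
  (t ∈ Act → ∀ x : List Bool, x.length = t.2 →
    (s'.1 (cdw (L t.1 t.2) t.1 w x) = true ↔ Q t.1 x s.1)) ∧
  ∀ y, (t ∈ Act → ∀ x : List Bool, x.length = t.2 → y ≠ cdw (L t.1 t.2) t.1 w x) →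
    s'.1 y = s.1 y

/-- specification of one step of the construction -/
def Spec (c : ℕ → ℕ) (L : ℕ → ℕ → ℕ) (Act : Set (ℕ × ℕ)) (Q : ℕ → List Bool → Oracle → Prop)
    (key : ℕ × ℕ → ℕ) (k : ℕ) (s s' : Oracle × Finset (List Bool)) : Prop :=
  s.2 ⊆ s'.2 ∧ ((∀ t, key t ≠ k) → s' = s) ∧ ∀ t, key t = k → ∃ w, SpecT c L Act Q t s s' w

/-- the lists of length `n` -/
def lists (n : ℕ) : Finset (List Bool) := (univ : Finset (List.Vector Bool n)).image (fun v => v.1)

theorem mem_lists {n : ℕ} {x : List Bool} : x ∈ lists n ↔ x.length = n := by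
  unfold lists
  rw [mem_image]
  constructor
  · rintro ⟨v, _, rfl⟩
    exact v.2
  · intro h
    exact ⟨⟨x, h⟩, mem_univ _, rfl⟩

theorem card_lists (n : ℕ) : (lists n).card = 2 ^ n := by
  have h := card_image_of_injective (univ : Finset (List.Vector Bool n))
    (f := fun v : List.Vector Bool n => v.1) Subtype.val_injective
  unfold lists
  rw [h, card_univ, card_vector, Fintype.card_bool]

theorem exists_w (c : ℕ → ℕ) (L : ℕ → ℕ → ℕ) (t : ℕ × ℕ) (F : Finset (List Bool)) :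
    ∃ w : List Bool, w.length = hw c t.1 t.2 + 1 ∧ (F.card ≤ 2 ^ hw c t.1 t.2 →
      ∀ x : List Bool, x.length = t.2 → cdw (L t.1 t.2) t.1 w x ∉ F) := by
  by_contra hcon
  have h1 : ∀ w : List Bool, w.length = hw c t.1 t.2 + 1 → F.card ≤ 2 ^ hw c t.1 t.2 ∧
      ∃ x : List Bool, x.length = t.2 ∧ cdw (L t.1 t.2) t.1 w x ∈ F := by
    intro w hw1
    by_contra h
    apply hcon
    refine ⟨w, hw1, fun hF x hx hm => h ⟨hF, x, hx, hm⟩⟩
  have hF : F.card ≤ 2 ^ hw c t.1 t.2 :=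
    (h1 (List.replicate (hw c t.1 t.2 + 1) false) (List.length_replicate)).1
  have h2 : ∀ w : List Bool, ∃ x : List Bool, w.length = hw c t.1 t.2 + 1 →
      x.length = t.2 ∧ cdw (L t.1 t.2) t.1 w x ∈ F := by
    intro w
    by_cases hw1 : w.length = hw c t.1 t.2 + 1
    · obtain ⟨x, hx⟩ := (h1 w hw1).2
      exact ⟨x, fun _ => hx⟩
    · exact ⟨[], fun h => absurd h hw1⟩
  choose g hg using h2
  have h3 : (lists (hw c t.1 t.2 + 1)).card ≤ F.card := by
    refine Finset.card_le_card_of_injOn (fun w => cdw (L t.1 t.2) t.1 w (g w)) ?_ ?_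
    · intro w hw1
      exact (hg w (mem_lists.1 hw1)).2
    · intro w hw1 w' hw2 h
      have e1 := mem_lists.1 (Finset.mem_coe.1 hw1)
      have e2 := mem_lists.1 (Finset.mem_coe.1 hw2)
      exact (cdw_inj (hg w e1).1 (hg w' e2).1 e1 e2 h).2.2.1
  rw [card_lists, pow_succ] at h3
  have : 0 < 2 ^ hw c t.1 t.2 := by positivity
  omega

open Classical in
theorem exists_step (c : ℕ → ℕ) (L : ℕ → ℕ → ℕ) (Act : Set (ℕ × ℕ))
    (Q : ℕ → List Bool → Oracle → Prop)
    (hQ : ∀ (e : ℕ) (x : List Bool) (A : Oracle), ∃ U : Finset (List Bool),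
      U.card ≤ 2 ^ (c e * (x.length + 1)) ∧
      ∀ A' : Oracle, (∀ u ∈ U, A' u = A u) → (Q e x A' ↔ Q e x A))
    (key : ℕ × ℕ → ℕ) (hkey : Function.Injective key) (k : ℕ)
    (s : Oracle × Finset (List Bool)) : ∃ s', Spec c L Act Q key k s s' := by
  by_cases hk : ∃ t, key t = k
  · obtain ⟨t, ht⟩ := hk
    obtain ⟨A, F⟩ := s
    choose U hU1 hU2 using fun x => hQ t.1 x A
    obtain ⟨w, hw1, hw2⟩ := exists_w c L t (F ∪ (lists t.2).biUnion U)
    refine ⟨(fun y => if t ∈ Act ∧ ∃ x : List Bool, x.length = t.2 ∧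
        y = cdw (L t.1 t.2) t.1 w x then
          decide (∃ x : List Bool, x.length = t.2 ∧ y = cdw (L t.1 t.2) t.1 w x ∧ Q t.1 x A)
        else A y, F ∪ (lists t.2).biUnion U), subset_union_left, fun h => absurd ht (h t), ?_⟩
    intro t' ht'
    have : t' = t := hkey (ht'.trans ht.symm)
    subst this
    refine ⟨w, hw1, ?_, ?_, hw2, ?_, ?_⟩
    · refine (card_union_le _ _).trans (Nat.add_le_add_left ?_ _)
      refine card_biUnion_le.trans ?_
      have h1 : ∀ x ∈ lists t'.2, (U x).card ≤ 2 ^ (c t'.1 * (t'.2 + 1)) := by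
        intro x hx
        have := hU1 x
        rwa [mem_lists.1 hx] at this
      refine (sum_le_card_nsmul _ _ _ h1).trans ?_
      rw [card_lists, smul_eq_mul, pow_add, mul_comm]
    · intro x hx A' hA'
      exact hU2 x A' fun u hu => hA' u (mem_union_right _ (mem_biUnion.2 ⟨x, mem_lists.2 hx, hu⟩))
    · intro hact x hx
      show (if t' ∈ Act ∧ ∃ x' : List Bool, x'.length = t'.2 ∧
        cdw (L t'.1 t'.2) t'.1 w x = cdw (L t'.1 t'.2) t'.1 w x' then
          decide (∃ x' : List Bool, x'.length = t'.2 ∧ cdw (L t'.1 t'.2) t'.1 w x =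
            cdw (L t'.1 t'.2) t'.1 w x' ∧ Q t'.1 x' A)
        else A (cdw (L t'.1 t'.2) t'.1 w x)) = true ↔ Q t'.1 x A
      rw [if_pos ⟨hact, x, hx, rfl⟩, decide_eq_true_eq]
      constructor
      · rintro ⟨x', hx', h1, h2⟩
        rw [(cdw_inj hx hx' hw1 hw1 h1).2.2.2]
        exact h2
      · intro h
        exact ⟨x, hx, rfl, h⟩
    · intro y hy
      show (if t' ∈ Act ∧ ∃ x' : List Bool, x'.length = t'.2 ∧
        y = cdw (L t'.1 t'.2) t'.1 w x' then _ else A y) = A y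
      rw [if_neg]
      rintro ⟨h1, x, hx, h2⟩
      exact hy h1 x hx h2
  · exact ⟨s, Subset.refl _, fun _ => rfl, fun t ht => absurd ⟨t, ht⟩ hk⟩

theorem Cs_mono (c : ℕ → ℕ) (L : ℕ → ℕ → ℕ) (key : ℕ × ℕ → ℕ) {k k' : ℕ}
    {F F' : Finset (List Bool)} (hk : k ≤ k') (hF : F ⊆ F') :
    Cs c L key k F ⊆ Cs c L key k' F' := by
  rintro y (h | h | ⟨t, h, h'⟩)
  · exact Or.inl h
  · exact Or.inr (Or.inl (hF h))
  · exact Or.inr (Or.inr ⟨t, h, by omega⟩)

theorem main (c : ℕ → ℕ) (L : ℕ → ℕ → ℕ) (Act : Set (ℕ × ℕ))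
    (Q : ℕ → List Bool → Oracle → Prop)
    (hQ : ∀ (e : ℕ) (x : List Bool) (A : Oracle), ∃ U : Finset (List Bool),
      U.card ≤ 2 ^ (c e * (x.length + 1)) ∧
      ∀ A' : Oracle, (∀ u ∈ U, A' u = A u) → (Q e x A' ↔ Q e x A)) (B : Oracle)
    (key : ℕ × ℕ → ℕ) (hkey : Function.Injective key)
    (hsum : ∀ (t : ℕ × ℕ) (S : Finset (ℕ × ℕ)), (∀ s ∈ S, key s ≤ key t) →
      ∑ s ∈ S, 2 ^ (c s.1 * (s.2 + 1) + s.2) ≤ 2 ^ hw c t.1 t.2) :
    ∃ (A : Oracle) (W : ℕ → ℕ → List Bool), (∀ e n, (W e n).length = hw c e n + 1) ∧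
      (∀ y, (∀ e n x, (e, n) ∈ Act → x.length = n → y ≠ cdw (L e n) e (W e n) x) →
        A y = B y) ∧
      ∀ e n x, (e, n) ∈ Act → x.length = n →
        (A (cdw (L e n) e (W e n) x) = true ↔ Q e x A) := by
  classical
  have hstep := fun k s => exists_step c L Act Q hQ key hkey k s
  choose nx hnx using hstep
  obtain ⟨st, hst0, hstS⟩ : ∃ st : ℕ → Oracle × Finset (List Bool), st 0 = (B, ∅) ∧
      ∀ k, st (k + 1) = nx k (st k) :=
    ⟨fun k => Nat.rec (motive := fun _ => Oracle × Finset (List Bool)) (B, ∅) nx k, rfl,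
      fun k => rfl⟩
  have hspec : ∀ k, Spec c L Act Q key k (st k) (st (k + 1)) := fun k => by
    rw [hstS]
    exact hnx k (st k)
  have hW : ∀ t, ∃ w, SpecT c L Act Q t (st (key t)) (st (key t + 1)) w :=
    fun t => (hspec (key t)).2.2 t rfl
  choose W hW using hW
  have hFm : ∀ k j, k ≤ j → (st k).2 ⊆ (st j).2 := by
    intro k j h
    induction j, h using Nat.le_induction with
    | base => exact Subset.refl _
    | succ j _ ih => exact ih.trans (hspec j).1
  have hcard : ∀ k, ∃ S : Finset (ℕ × ℕ), (∀ s ∈ S, key s < k) ∧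
      (st k).2.card ≤ ∑ s ∈ S, 2 ^ (c s.1 * (s.2 + 1) + s.2) := by
    intro k
    induction k with
    | zero => exact ⟨∅, by simp, by simp [hst0]⟩
    | succ k ih =>
      obtain ⟨S, hS1, hS2⟩ := ih
      by_cases hk : ∃ t, key t = k
      · obtain ⟨t, rfl⟩ := hk
        have hnot : t ∉ S := fun h => by
          have := hS1 t h
          omega
        refine ⟨insert t S, ?_, ?_⟩
        · intro s hs
          rcases mem_insert.1 hs with rfl | h
          · omega
          · have := hS1 s h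
            omega
        · rw [sum_insert hnot]
          have := (hW t).2.1
          omega
      · refine ⟨S, fun s hs => by have := hS1 s hs; omega, ?_⟩
        rw [(hspec k).2.1 fun t ht => hk ⟨t, ht⟩]
        exact hS2
  have hF : ∀ t : ℕ × ℕ, (st (key t + 1)).2.card ≤ 2 ^ hw c t.1 t.2 := by
    intro t
    obtain ⟨S, hS1, hS2⟩ := hcard (key t + 1)
    exact hS2.trans (hsum t S fun s hs => Nat.lt_succ_iff.1 (hS1 s hs))
  -- strings changed at stage `key t`
  have hch : ∀ t y, y ∈ (st (key t + 1)).2 → (st (key t + 1)).1 y = (st (key t)).1 y := by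
    intro t y hy
    refine (hW t).2.2.2.2.2 y fun _ x hx e => ?_
    exact (hW t).2.2.2.1 (hF t) x hx (e ▸ hy)
  have hch2 : ∀ t y, ¬ IsC c L t y → (st (key t + 1)).1 y = (st (key t)).1 y := by
    intro t y hy
    exact (hW t).2.2.2.2.2 y fun _ x hx e => hy ⟨W t, x, (hW t).1, hx, e⟩
  have hAg : ∀ k j, k ≤ j → ∀ y ∈ Cs c L key k (st k).2, (st j).1 y = (st k).1 y := by
    intro k j h
    induction j, h using Nat.le_induction with
    | base => exact fun y _ => rfl
    | succ j hj ih =>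
      intro y hy
      rw [← ih y hy]
      by_cases hk : ∃ t, key t = j
      · obtain ⟨t, rfl⟩ := hk
        rcases hy with h | h | ⟨t', h, h'⟩
        · exact hch2 t y (h t)
        · exact hch t y (hFm k (key t + 1) (by omega) h)
        · refine hch2 t y fun h2 => ?_
          rw [h.uniq h2] at h'
          omega
      · rw [(hspec j).2.1 fun t ht => hk ⟨t, ht⟩]
  -- the limit oracle
  obtain ⟨A, hA1, hA2⟩ : ∃ A : Oracle, (∀ y, (∀ t, ¬ IsC c L t y) → A y = B y) ∧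
      ∀ t y, IsC c L t y → A y = (st (key t + 1)).1 y := by
    refine ⟨fun y => if h : ∃ t, IsC c L t y then (st (key h.choose + 1)).1 y else B y, ?_, ?_⟩
    · intro y hy
      beta_reduce
      rw [dif_neg]
      rintro ⟨t, ht⟩
      exact hy t ht
    · intro t y hty
      have h : ∃ t, IsC c L t y := ⟨t, hty⟩
      beta_reduce
      rw [dif_pos h, h.choose_spec.uniq hty]
  have hAk : ∀ k, ∀ y ∈ Cs c L key k (st k).2, A y = (st k).1 y := by
    intro k y hy
    by_cases h : ∃ t, IsC c L t y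
    · obtain ⟨t, ht⟩ := h
      rw [hA2 t y ht]
      have h1 := hAg (key t + 1) (max (key t + 1) k) (le_max_left _ _) y
        (Or.inr (Or.inr ⟨t, ht, Nat.lt_succ_self _⟩))
      have h2 := hAg k (max (key t + 1) k) (le_max_right _ _) y hy
      rw [← h1, h2]
    · have h' : ∀ t, ¬ IsC c L t y := fun t ht => h ⟨t, ht⟩
      rw [hA1 y h']
      have h2 := hAg 0 k (Nat.zero_le _) y (Or.inl h')
      rw [h2, hst0]
  have hB : ∀ t y, IsC c L t y → ∀ j ≤ key t, (st j).1 y = B y := by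
    intro t y hy j
    induction j with
    | zero => intro _; rw [hst0]
    | succ j ih =>
      intro hj
      rw [← ih (by omega)]
      by_cases hk : ∃ t', key t' = j
      · obtain ⟨t', rfl⟩ := hk
        refine hch2 t' y fun h2 => ?_
        rw [hy.uniq h2] at hj
        omega
      · rw [(hspec j).2.1 fun t ht => hk ⟨t, ht⟩]
  refine ⟨A, fun e n => W (e, n), fun e n => (hW (e, n)).1, ?_, ?_⟩
  · intro y hy
    by_cases h : ∃ t, IsC c L t y
    · obtain ⟨t, ht⟩ := h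
      rw [hA2 t y ht, ← hB t y ht (key t) le_rfl]
      exact (hW t).2.2.2.2.2 y fun h1 x hx => hy t.1 t.2 x h1 hx
    · exact hA1 y fun t ht => h ⟨t, ht⟩
  · intro e n x hact hx
    have h1 : IsC c L (e, n) (cdw (L e n) e (W (e, n)) x) := ⟨W (e, n), x, (hW (e, n)).1, hx, rfl⟩
    rw [hA2 (e, n) _ h1]
    have h2 := (hW (e, n)).2.2.2.2.1 hact x hx
    have h3 := (hW (e, n)).2.2.1 x hx A (fun u hu => by
      rw [hAk (key (e, n) + 1) u (Or.inr (Or.inl hu))]
      exact hch (e, n) u hu)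
    exact h2.trans h3.symm

end STG

theorem exists_stageP (c : ℕ → ℕ) (L : ℕ → ℕ → ℕ) (Act : Set (ℕ × ℕ))
    (Q : ℕ → List Bool → Oracle → Prop)
    (hQ : ∀ (e : ℕ) (x : List Bool) (A : Oracle), ∃ U : Finset (List Bool),
      U.card ≤ 2 ^ (c e * (x.length + 1)) ∧
      ∀ A' : Oracle, (∀ u ∈ U, A' u = A u) → (Q e x A' ↔ Q e x A)) (B : Oracle) :
    ∃ (A : Oracle) (W : ℕ → ℕ → List Bool), (∀ e n, (W e n).length = hw c e n + 1) ∧
      (∀ y, (∀ e n x, (e, n) ∈ Act → x.length = n → y ≠ cdw (L e n) e (W e n) x) →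
        A y = B y) ∧
      ∀ e n x, (e, n) ∈ Act → x.length = n →
        (A (cdw (L e n) e (W e n) x) = true ↔ Q e x A) := by
  obtain ⟨key, hkey, hsum⟩ := exists_keyP c
  exact STG.main c L Act Q hQ B key hkey hsum

end Pool.Agent.H622R2.Ckt
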