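import Pool.Agent.H622R2.Ckt.Base
import Pool.Agent.H620R2.Gauge2.Null

/-!
# Exact statements of the tasks (never import this file in a finished file)
-/

namespace Pool.Agent.H622R2.Ckt

open Pool.Agent.NPC Pool.Agent.H620R2.Gauge Pool.Agent.H622R2.Exp Finset H568R2 Pool.Agent.H676
open Filter (atTop)

/-! ### Task KEY -/

theorem exists_keyP (c : ℕ → ℕ) : ∃ key : ℕ × ℕ → ℕ, Function.Injective key ∧
    ∀ (t : ℕ × ℕ) (S : Finset (ℕ × ℕ)), (∀ s ∈ S, key s ≤ key t) →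
      ∑ s ∈ S, 2 ^ (c s.1 * (s.2 + 1) + s.2) ≤ 2 ^ hw c t.1 t.2 := by
  sorry

/-! ### Task STG (may use KEY) -/

theorem exists_stageP (c : ℕ → ℕ) (L : ℕ → ℕ → ℕ) (Act : Set (ℕ × ℕ))
    (Q : ℕ → List Bool → Oracle → Prop)
    (hQ : ∀ (e : ℕ) (x : List Bool) (A : Oracle), ∃ U : Finset (List Bool),
      U.card ≤ 2 ^ (c e * (x.length + 1)) ∧
      ∀ A' : Oracle, (∀ u ∈ U, A' u = A u) → (Q e x A' ↔ Q e x A)) (B : Oracle) :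
    ∃ (A : Oracle) (W : ℕ → ℕ → List Bool), (∀ e n, (W e n).length = hw c e n + 1) ∧
      (∀ y, (∀ e n x, (e, n) ∈ Act → x.length = n → y ≠ cdw (L e n) e (W e n) x) →
        A y = B y) ∧
      ∀ e n x, (e, n) ∈ Act → x.length = n →
        (A (cdw (L e n) e (W e n) x) = true ↔ Q e x A) := by
  sorry

/-! ### Task NNF -/

theorem not_null_fam (f : ℕ → ℝ) (O : Set Oracle) (Y : ℕ → Finset (Finset ℕ)) (d : ℝ)
    (hY : ∀ N, ∑ y ∈ Y N, (2 : ℝ) ^ y.card ≤ 2 ^ (f N + d))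
    (h : ∀ B : Oracle, ∃ A ∈ O, ∀ N, ∃ y ∈ Y N, ∀ i < N, i ∉ y → A (str i) = B (str i)) :
    ¬ Null f O := by
  sorry

/-! ### Task FAM -/

theorem exists_fam (f : ℕ → ℝ) (c : ℕ → ℕ) (L : ℕ → ℕ → ℕ) (Act : Set (ℕ × ℕ))
    (h : Cheap f c L Act) :
    ∃ (Y : ℕ → Finset (Finset ℕ)) (d : ℝ), (∀ N, ∑ y ∈ Y N, (2 : ℝ) ^ y.card ≤ 2 ^ (f N + d)) ∧
      ∀ W : ℕ → ℕ → List Bool, (∀ e n, (W e n).length = hw c e n + 1) → ∀ N, ∃ y ∈ Y N,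
        ∀ i < N, i ∉ y → ∀ e n x, (e, n) ∈ Act → x.length = n →
          str i ≠ cdw (L e n) e (W e n) x := by
  sorry

/-! ### Task CIO -/

theorem choose_io (c : ℕ → ℕ) (ε s : ℕ → ℝ) (hε : ∀ e, 0 < ε e ∧ ε e < 1)
    (hs : ∀ e, 1 / ε e < s e) (f : ℕ → ℝ)
    (hf : ∀ e, ¬ ∀ᶠ N : ℕ in atTop, ∃ N' ≥ N, f N' ≤ (Real.logb 2 N) ^ s e) :
    ∃ Act : Set (ℕ × ℕ), (∀ e, ∃ᶠ n in atTop, (e, n) ∈ Act) ∧ Cheap f c (Lf ε) Act := by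
  sorry

/-! ### Task CAE -/

theorem choose_ae (c : ℕ → ℕ) (ε s : ℕ → ℝ) (hε : ∀ e, 0 < ε e ∧ ε e < 1)
    (hs : ∀ e, 1 / ε e < s e) (f : ℕ → ℝ)
    (hf : ∀ e, ¬ ∃ᶠ N : ℕ in atTop, f N ≤ (Real.logb 2 N) ^ s e) :
    ∃ Act : Set (ℕ × ℕ), (∀ e, ∀ᶠ n in atTop, (e, n) ∈ Act) ∧ Cheap f c (Lf ε) Act := by
  sorry

/-! ### Task CIR -/

theorem exists_circuit (u v : List Bool) (n : ℕ) : ∃ C : Circuit,
    C.size = u.length + n + v.length + 1 ∧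
    ∀ (A : Oracle) (x : List Bool), x.length = n → C.eval A x = A (u ++ x ++ v) := by
  sorry

theorem small_of_code {A : Oracle} {L : Set (List Bool)} {ε : ℕ → ℝ} {e n : ℕ} {w : List Bool}
    (hL : e + 2 * n + 2 + w.length ≤ Lf ε e n)
    (h : ∀ x : List Bool, x.length = n → (A (cdw (Lf ε e n) e w x) = true ↔ x ∈ L)) :
    Small A L (2 ^ (ε e * n)) n := by
  sorry

/-! ### Task CNT -/

theorem exists_circuits (n k : ℕ) : ∃ F : Finset Circuit, F.card ≤ nC n k ∧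
    ∀ C : Circuit, C.size ≤ k → ∃ C' ∈ F, C'.size ≤ k ∧
      ∀ (A : Oracle) (x : List Bool), x.length = n → C'.eval A x = C.eval A x := by
  sorry

/-! ### Task LOC -/

theorem eval_local (C : Circuit) (A A' : Oracle)
    (h : ∀ y : List Bool, y.length < C.size → A y = A' y) (x : List Bool) :
    C.eval A x = C.eval A' x := by
  sorry

/-! ### Task EVB (may use CNT, LOC) -/

open Classical in
theorem evK_bound (a b n k N : ℕ) (hk : k ≤ mT a b n) (hN : 2 ^ (n + mT a b n + 1) ≤ N) :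
    Ex unif (fun v : Fin N → Bool => if EvK a b n k N v then (1 : ℝ) else 0) ≤
      nC n k / 2 ^ 2 ^ n := by
  sorry

/-! ### Task EVO (may use LOC) -/

theorem evK_of {a b n N : ℕ} {ε : ℝ} (hε : ε * b ≤ a) (hb : 0 < b)
    (hN : 2 ^ (n + mT a b n + 1) ≤ N) {A : Oracle}
    (h : Small A (test a b A) (2 ^ (ε * n)) n) : EvK a b n ⌊(2 : ℝ) ^ (ε * n)⌋₊ N (pre N A) := by
  sorry

theorem floor_le_mT {a b n : ℕ} {ε : ℝ} (hε : ε * b ≤ a) (hb : 0 < b) :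
    ⌊(2 : ℝ) ^ (ε * n)⌋₊ ≤ mT a b n := by
  sorry

/-! ### Task ASI -/

theorem asy_io {a b : ℕ} {ε s : ℝ} (hε : 0 < ε) (hb : 0 < b) (hεa : ε * b ≤ a) (hab : a < b)
    (hs : 0 < s) (hsa : s * a < b) {f : ℕ → ℝ}
    (hf : ∀ᶠ N : ℕ in atTop, ∃ N' ≥ N, f N' ≤ (Real.logb 2 N) ^ s) (δ : ℝ) (hδ : 0 < δ) :
    ∃ (n₁ : ℕ) (N : ℕ → ℕ), ∀ n ≥ n₁, 2 ^ (n + mT a b n + 1) ≤ N n ∧
      (nC n ⌊(2 : ℝ) ^ (ε * n)⌋₊ / 2 ^ 2 ^ n : ℝ) * 2 ^ f (N n) ≤ δ / 2 ^ (n + 1) := by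
  sorry

/-! ### Task ASA -/

theorem asy_ae {a b : ℕ} {ε s : ℝ} (hε : 0 < ε) (hb : 0 < b) (hεa : ε * b ≤ a) (hab : a < b)
    (hs : 0 < s) (hsa : s * a < b) {f : ℕ → ℝ}
    (hf : ∃ᶠ N : ℕ in atTop, f N ≤ (Real.logb 2 N) ^ s) (δ : ℝ) (hδ : 0 < δ) (n₀ : ℕ) :
    ∃ n ≥ n₀, ∃ N, 2 ^ (n + mT a b n + 1) ≤ N ∧
      (nC n ⌊(2 : ℝ) ^ (ε * n)⌋₊ / 2 ^ 2 ^ n : ℝ) * 2 ^ f N ≤ δ := by
  sorry

/-! ### Task NIO (may use EVB, EVO, ASI) -/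

theorem null_io {a b : ℕ} {ε s : ℝ} (hε : 0 < ε) (hb : 0 < b) (hεa : ε * b ≤ a) (hab : a < b)
    (hs : 0 < s) (hsa : s * a < b) {f : ℕ → ℝ}
    (hf : ∀ᶠ N : ℕ in atTop, ∃ N' ≥ N, f N' ≤ (Real.logb 2 N) ^ s) :
    Null f {A : Oracle | ∃ᶠ n : ℕ in atTop, Small A (test a b A) (2 ^ (ε * n)) n} := by
  sorry

/-! ### Task NAE (may use EVB, EVO, ASA) -/

theorem null_ae {a b : ℕ} {ε s : ℝ} (hε : 0 < ε) (hb : 0 < b) (hεa : ε * b ≤ a) (hab : a < b)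
    (hs : 0 < s) (hsa : s * a < b) {f : ℕ → ℝ}
    (hf : ∃ᶠ N : ℕ in atTop, f N ≤ (Real.logb 2 N) ^ s) :
    Null f {A : Oracle | ∀ᶠ n : ℕ in atTop, Small A (test a b A) (2 ^ (ε * n)) n} := by
  sorry

/-! ### Task TST -/

theorem test_inTime (a b : ℕ) (A : Oracle) : InTime Lin A (test a b A) := by
  sorry

end Pool.Agent.H622R2.Ckt
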